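import Mathlib

set_option autoImplicit false

/-!
# The combinatorial core: local purity of functionals and small oscillation

`Q` is a set and `e l : Q → [-1, 1]` are functions such that every `e j` has small oscillation on
the support of `e l` for large `l`. A convex set `C` of sequences `L` with
`|L(x)| ≤ R ‖x‖_∞ + lam ‖x‖₁` contains relatively open parts on which all coordinates oscillate by
at most `12 lam`.
-/

namespace Pool.Agent.H791R2.Cp

open Finsupp

variable {Q : Type*}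

/-- the value of the functional with coordinates `L` at the finitely supported vector `x` -/
noncomputable def pr (L : ℕ → ℝ) : (ℕ →₀ ℝ) →ₗ[ℝ] ℝ := Finsupp.linearCombination ℝ L

/-- the value at `b` of the function given by `x` -/
noncomputable def ev (e : ℕ → Q → ℝ) (b : Q) : (ℕ →₀ ℝ) →ₗ[ℝ] ℝ := pr fun l => e l b

/-- the `ℓ₁` norm -/
noncomputable def one (x : ℕ →₀ ℝ) : ℝ := x.sum fun _ a => |a|

lemma pr_eq_sum (L : ℕ → ℝ) (x : ℕ →₀ ℝ) : pr L x = ∑ l ∈ x.support, x l * L l := by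
  simp [pr, Finsupp.linearCombination_apply, Finsupp.sum]

lemma ev_eq_sum (e : ℕ → Q → ℝ) (b : Q) (x : ℕ →₀ ℝ) :
    ev e b x = ∑ l ∈ x.support, x l * e l b := pr_eq_sum _ _

lemma one_eq_sum (x : ℕ →₀ ℝ) : one x = ∑ l ∈ x.support, |x l| := rfl

lemma one_nonneg (x : ℕ →₀ ℝ) : 0 ≤ one x := Finset.sum_nonneg fun _ _ => abs_nonneg _

lemma one_eq_sum_of_subset {x : ℕ →₀ ℝ} {s : Finset ℕ} (h : x.support ⊆ s) :
    one x = ∑ l ∈ s, |x l| := by
  rw [one_eq_sum]
  refine Finset.sum_subset h fun l _ hl => ?_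
  rw [Finsupp.notMem_support_iff.1 hl, abs_zero]

lemma one_add (x y : ℕ →₀ ℝ) : one (x + y) ≤ one x + one y := by
  classical
  have h1 : (x + y).support ⊆ x.support ∪ y.support := Finsupp.support_add
  rw [one_eq_sum_of_subset h1, one_eq_sum_of_subset (Finset.subset_union_left (s₂ := y.support)),
    one_eq_sum_of_subset (Finset.subset_union_right (s₁ := x.support)), ← Finset.sum_add_distrib]
  exact Finset.sum_le_sum fun l _ => abs_add_le _ _

lemma one_smul' (c : ℝ) (x : ℕ →₀ ℝ) : one (c • x) = |c| * one x := by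
  have h1 : (c • x).support ⊆ x.support := Finsupp.support_smul
  rw [one_eq_sum_of_subset h1, one_eq_sum, Finset.mul_sum]
  exact Finset.sum_congr rfl fun l _ => by simp [abs_mul]

lemma one_zero : one 0 = 0 := by simp [one]

lemma one_single (l : ℕ) (a : ℝ) : one (Finsupp.single l a) = |a| := by
  rw [one, Finsupp.sum_single_index]
  exact abs_zero

lemma one_neg (x : ℕ →₀ ℝ) : one (-x) = one x := by
  have := one_smul' (-1) x
  simpa using this

lemma one_sum {ι : Type*} (s : Finset ι) (y : ι → (ℕ →₀ ℝ)) :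
    one (∑ i ∈ s, y i) ≤ ∑ i ∈ s, one (y i) := by
  classical
  induction s using Finset.induction_on with
  | empty => simp [one_zero]
  | insert a s ha ih =>
    rw [Finset.sum_insert ha, Finset.sum_insert ha]
    exact (one_add _ _).trans (by linarith)

lemma pr_single (L : ℕ → ℝ) (l : ℕ) (a : ℝ) : pr L (Finsupp.single l a) = a * L l := by
  simp [pr]

lemma ev_single (e : ℕ → Q → ℝ) (b : Q) (l : ℕ) (a : ℝ) :
    ev e b (Finsupp.single l a) = a * e l b := pr_single _ _ _

/-- comparison of two functionals close on the support -/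
lemma abs_pr_sub_le {L L' : ℕ → ℝ} {x : ℕ →₀ ℝ} {δ : ℝ}
    (h : ∀ l ∈ x.support, |L l - L' l| ≤ δ) : |pr L x - pr L' x| ≤ δ * one x := by
  rw [pr_eq_sum, pr_eq_sum, ← Finset.sum_sub_distrib, one_eq_sum, Finset.mul_sum]
  refine (Finset.abs_sum_le_sum_abs _ _).trans (Finset.sum_le_sum fun l hl => ?_)
  rw [← mul_sub, abs_mul, mul_comm]
  exact mul_le_mul_of_nonneg_right (h l hl) (abs_nonneg _)

lemma abs_pr_le {L : ℕ → ℝ} {x : ℕ →₀ ℝ} {δ : ℝ}
    (h : ∀ l ∈ x.support, |L l| ≤ δ) : |pr L x| ≤ δ * one x := by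
  have := abs_pr_sub_le (L := L) (L' := 0) (x := x) (δ := δ) (by simpa using h)
  simpa [pr_eq_sum] using this

lemma pr_add_left (L L' : ℕ → ℝ) (x : ℕ →₀ ℝ) : pr (L + L') x = pr L x + pr L' x := by
  rw [pr_eq_sum, pr_eq_sum, pr_eq_sum, ← Finset.sum_add_distrib]
  exact Finset.sum_congr rfl fun l _ => by simp [mul_add]

lemma pr_smul_left (c : ℝ) (L : ℕ → ℝ) (x : ℕ →₀ ℝ) : pr (c • L) x = c * pr L x := by
  rw [pr_eq_sum, pr_eq_sum, Finset.mul_sum]
  exact Finset.sum_congr rfl fun l _ => by simp; ring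

/-- a relatively open convex nonempty subset of `C` -/
structure Nb (C U : Set (ℕ → ℝ)) : Prop where
  sub : U ⊆ C
  ne : U.Nonempty
  conv : Convex ℝ U
  opn : ∀ L ∈ U, ∃ m : ℕ, ∃ δ : ℝ, 0 < δ ∧ ∀ L' ∈ C, (∀ l < m, |L' l - L l| < δ) → L' ∈ U

/-- open boxes -/
def bx (L : ℕ → ℝ) (m : ℕ) (δ : ℝ) : Set (ℕ → ℝ) := {L' | ∀ l < m, |L' l - L l| < δ}

lemma convex_bx (L : ℕ → ℝ) (m : ℕ) (δ : ℝ) : Convex ℝ (bx L m δ) := by
  intro x hx y hy a b ha hb hab l hl
  have h1 : (a • x + b • y) l - L l = a * (x l - L l) + b * (y l - L l) := by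
    have : L l = (a + b) * L l := by rw [hab, one_mul]
    simp only [Pi.add_apply, Pi.smul_apply, smul_eq_mul]
    linear_combination (-1 : ℝ) * this
  rw [h1]
  have hx' := hx l hl
  have hy' := hy l hl
  have h2 : |a * (x l - L l) + b * (y l - L l)| ≤ a * |x l - L l| + b * |y l - L l| := by
    refine (abs_add_le _ _).trans ?_
    rw [abs_mul, abs_mul, abs_of_nonneg ha, abs_of_nonneg hb]
  rcases ha.eq_or_lt with h | h
  · subst h
    have hb1 : b = 1 := by linarith
    subst hb1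
    linarith
  · have h3 : a * δ + b * δ = δ := by rw [← add_mul, hab, one_mul]
    have h4 := mul_lt_mul_of_pos_left hx' h
    have h5 := mul_le_mul_of_nonneg_left hy'.le hb
    linarith

lemma Nb.inter_bx {C U : Set (ℕ → ℝ)} (h : Nb C U) {L : ℕ → ℝ} (hL : L ∈ U) (m : ℕ) {δ : ℝ}
    (hδ : 0 < δ) : Nb C (U ∩ bx L m δ) := by
  refine ⟨fun x hx => h.sub hx.1, ⟨L, hL, fun l _ => by simpa using hδ⟩,
    h.conv.inter (convex_bx _ _ _), ?_⟩
  rintro M ⟨hM1, hM2⟩
  obtain ⟨m1, δ1, hδ1, h1⟩ := h.opn M hM1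
  -- room in the box
  have h2 : ∃ δ2 : ℝ, 0 < δ2 ∧ ∀ l < m, |M l - L l| + δ2 ≤ δ := by
    clear h1
    induction m with
    | zero => exact ⟨1, one_pos, fun l hl => absurd hl (Nat.not_lt_zero _)⟩
    | succ m ih =>
      obtain ⟨δ2, hδ2, h3⟩ := ih (fun l hl => hM2 l (Nat.lt_succ_of_lt hl))
      have h4 := hM2 m (Nat.lt_succ_self m)
      refine ⟨min δ2 (δ - |M m - L m|), lt_min hδ2 (by linarith), fun l hl => ?_⟩
      rcases Nat.lt_succ_iff_lt_or_eq.1 hl with hl' | rfl
      · have := h3 l hl'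
        have := min_le_left δ2 (δ - |M m - L m|)
        linarith
      · have := min_le_right δ2 (δ - |M l - L l|)
        linarith
  obtain ⟨δ2, hδ2, h3⟩ := h2
  refine ⟨max m m1, min δ1 δ2, lt_min hδ1 hδ2, fun N hN hN' => ⟨h1 N hN fun l hl => ?_, fun l hl => ?_⟩⟩
  · exact (hN' l (lt_of_lt_of_le hl (le_max_right _ _))).trans_le (min_le_left _ _)
  · have h5 := (hN' l (lt_of_lt_of_le hl (le_max_left _ _))).trans_le (min_le_right _ _)
    have h6 := h3 l hl
    have h7 : |N l - L l| ≤ |N l - M l| + |M l - L l| := abs_sub_le _ _ _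
    linarith

end Pool.Agent.H791R2.Cp
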