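import Pool.Agent.H791R2.A

set_option autoImplicit false

/-!
# Packings, energy, local purity
-/

namespace Pool.Agent.H791R2.Cp

variable {Q : Type*}

/-- packings at level `n` -/
structure Pk (e : ℕ → Q → ℝ) (n : ℕ) (s : Finset ℕ) (y : ℕ → (ℕ →₀ ℝ)) : Prop where
  lev : ∀ i ∈ s, ∀ l ∈ (y i).support, n ≤ l
  loc : ∀ i ∈ s, ∀ b b', ev e b (y i) ≠ 0 → ev e b' (y i) ≠ 0 → ∀ j < n,
    |e j b - e j b'| ≤ 1 / ((n : ℝ) + 1)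
  sm : ∀ b, ∑ i ∈ s, |ev e b (y i)| ≤ 1

/-- the mass of `L` seen by `x` -/
noncomputable def ms (lam : ℝ) (L : ℕ → ℝ) (x : ℕ →₀ ℝ) : ℝ := pr L x - lam * one x

/-- the energy -/
noncomputable def en (lam : ℝ) (L : ℕ → ℝ) (s : Finset ℕ) (y : ℕ → (ℕ →₀ ℝ)) : ℝ :=
  ∑ i ∈ s, (max (ms lam L (y i)) 0) ^ 2

lemma en_nonneg (lam : ℝ) (L : ℕ → ℝ) (s : Finset ℕ) (y : ℕ → (ℕ →₀ ℝ)) : 0 ≤ en lam L s y :=
  Finset.sum_nonneg fun _ _ => sq_nonneg _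

/-- masses of sums -/
lemma sum_ms_le {lam : ℝ} (hlam : 0 ≤ lam) (L : ℕ → ℝ) (s : Finset ℕ) (y : ℕ → (ℕ →₀ ℝ)) :
    ∑ i ∈ s, ms lam L (y i) ≤ ms lam L (∑ i ∈ s, y i) := by
  unfold ms
  rw [map_sum, Finset.sum_sub_distrib, ← Finset.mul_sum]
  have := mul_le_mul_of_nonneg_left (one_sum s y) hlam
  linarith

/-- the standing hypothesis -/
def Bd (e : ℕ → Q → ℝ) (R lam : ℝ) (C : Set (ℕ → ℝ)) : Prop :=
  ∀ L ∈ C, ∀ (x : ℕ →₀ ℝ) (c : ℝ), (∀ b, |ev e b x| ≤ c) → pr L x ≤ R * c + lam * one x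

lemma sum_mass_le {e : ℕ → Q → ℝ} {R lam : ℝ} (hlam : 0 ≤ lam) {C : Set (ℕ → ℝ)}
    (hC : Bd e R lam C) {L : ℕ → ℝ} (hL : L ∈ C) {n : ℕ} {s : Finset ℕ} {y : ℕ → (ℕ →₀ ℝ)}
    (h : Pk e n s y) : ∑ i ∈ s, max (ms lam L (y i)) 0 ≤ R := by
  classical
  have h1 : ∑ i ∈ s, max (ms lam L (y i)) 0 = ∑ i ∈ s.filter (fun i => 0 < ms lam L (y i)),
      ms lam L (y i) := by
    rw [Finset.sum_filter]
    refine Finset.sum_congr rfl fun i _ => ?_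
    split_ifs with h2
    · exact max_eq_left h2.le
    · exact max_eq_right (not_lt.1 h2)
  rw [h1]
  refine (sum_ms_le hlam _ _ _).trans ?_
  have h2 := hC L hL (∑ i ∈ s.filter (fun i => 0 < ms lam L (y i)), y i) 1 (fun b => ?_)
  · unfold ms at h2 ⊢
    linarith
  · rw [map_sum]
    refine (Finset.abs_sum_le_sum_abs _ _).trans (le_trans ?_ (h.sm b))
    exact Finset.sum_le_sum_of_subset_of_nonneg (Finset.filter_subset _ _)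
      fun _ _ _ => abs_nonneg _

lemma en_le {e : ℕ → Q → ℝ} {R lam : ℝ} (hlam : 0 ≤ lam) {C : Set (ℕ → ℝ)}
    (hC : Bd e R lam C) {L : ℕ → ℝ} (hL : L ∈ C) {n : ℕ} {s : Finset ℕ} {y : ℕ → (ℕ →₀ ℝ)}
    (h : Pk e n s y) : en lam L s y ≤ R ^ 2 := by
  have h1 := sum_mass_le hlam hC hL h
  have h2 : en lam L s y ≤ (∑ i ∈ s, max (ms lam L (y i)) 0) ^ 2 :=
    Finset.sum_sq_le_sq_sum_of_nonneg fun _ _ => le_max_right _ _
  exact h2.trans (pow_le_pow_left₀ (Finset.sum_nonneg fun _ _ => le_max_right _ _) h1 2)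

end Pool.Agent.H791R2.Cp
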