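import Pool.Agent.H791R2.B

set_option autoImplicit false

/-!
# Local purity
-/

namespace Pool.Agent.H791R2.Cp

variable {Q : Type*}

/-- adding one member to a part of a packing -/
lemma en_insert {e : ℕ → Q → ℝ} {lam B : ℝ} {L : ℕ → ℝ} {n : ℕ}
    (hA : ∀ s y, Pk e n s y → en lam L s y ≤ B) {J : Finset ℕ} {y : ℕ → (ℕ →₀ ℝ)}
    (hlev : ∀ i ∈ J, ∀ l ∈ (y i).support, n ≤ l)
    (hloc : ∀ i ∈ J, ∀ b b', ev e b (y i) ≠ 0 → ev e b' (y i) ≠ 0 → ∀ j < n,
      |e j b - e j b'| ≤ 1 / ((n : ℝ) + 1))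
    {w : ℕ →₀ ℝ} (hw1 : ∀ l ∈ w.support, n ≤ l)
    (hw2 : ∀ b b', ev e b w ≠ 0 → ev e b' w ≠ 0 → ∀ j < n, |e j b - e j b'| ≤ 1 / ((n : ℝ) + 1))
    (hsm : ∀ b, |ev e b w| + ∑ i ∈ J, |ev e b (y i)| ≤ 1) :
    (max (ms lam L w) 0) ^ 2 + en lam L J y ≤ B := by
  classical
  obtain ⟨a, ha⟩ := Infinite.exists_notMem_finset J
  have hne : ∀ i ∈ J, i ≠ a := fun i hi h => ha (h ▸ hi)
  have h1 : ∀ i ∈ J, Function.update y a w i = y i := fun i hi => Function.update_of_ne (hne i hi) _ _
  have h2 := hA (insert a J) (Function.update y a w) ⟨?_, ?_, ?_⟩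
  · unfold en at h2 ⊢
    rw [Finset.sum_insert ha, Function.update_self] at h2
    rwa [Finset.sum_congr rfl fun i hi => by rw [h1 i hi]] at h2
  · intro i hi
    rcases Finset.mem_insert.1 hi with rfl | hi
    · rw [Function.update_self]; exact hw1
    · rw [h1 i hi]; exact hlev i hi
  · intro i hi
    rcases Finset.mem_insert.1 hi with rfl | hi
    · rw [Function.update_self]; exact hw2
    · rw [h1 i hi]; exact hloc i hi
  · intro b
    rw [Finset.sum_insert ha, Function.update_self,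
      Finset.sum_congr rfl fun i hi => by rw [h1 i hi]]
    exact hsm b

lemma le_of_sq_le {a b : ℝ} (hb : 0 ≤ b) (h : (max a 0) ^ 2 ≤ b ^ 2) : a ≤ b :=
  (le_max_left a 0).trans (abs_le_of_sq_le_sq' h hb).2

/-- **Local purity.** -/
lemma local_pure {e : ℕ → Q → ℝ} [Nonempty Q] (he1 : ∀ l b, |e l b| ≤ 1)
    {C U : Set (ℕ → ℝ)} (hU : Nb C U) {R lam η r : ℝ} (hR : 0 < R) (hlam : 0 ≤ lam)
    (hC : Bd e R lam C) {n1 : ℕ}
    (hA : ∀ L ∈ U, ∀ s y, Pk e n1 s y → en lam L s y ≤ r + η)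
    (hB : ∀ U', Nb C U' → U' ⊆ U → ∀ n', ∃ L ∈ U', ∃ s y, Pk e n' s y ∧ r - η < en lam L s y)
    {Bs : Set Q} (hBs : ∀ b ∈ Bs, ∀ b' ∈ Bs, ∀ j < n1, |e j b - e j b'| ≤ 1 / (2 * ((n1 : ℝ) + 1)))
    {L : ℕ → ℝ} (hL : L ∈ U) (n2 : ℕ) {ε : ℝ} (hε : 0 < ε) (hηε : 2 * η ≤ (ε / 2) ^ 2) :
    ∃ z : Q, ∀ x : ℕ →₀ ℝ, (∀ l ∈ x.support, n1 ≤ l ∧ l < n2 ∧ ∀ b, e l b ≠ 0 → b ∈ Bs) →
      pr L x ≤ R * |ev e z x| + (lam + ε) * one x := by
  classical
  -- choice of the level
  obtain ⟨n3, hn3, hn3', hn3''⟩ : ∃ n3 : ℕ, n2 ≤ n3 ∧ n1 ≤ n3 ∧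
      (1 : ℝ) / ((n3 : ℝ) + 1) ≤ 1 / (4 * ((n1 : ℝ) + 1)) ∧ R * (1 / ((n3 : ℝ) + 1)) ≤ ε / 4 := by
    obtain ⟨N, hN⟩ := exists_nat_gt (4 * R / ε)
    refine ⟨N + n2 + 4 * (n1 + 1), by omega, by omega, ?_, ?_⟩
    · apply one_div_le_one_div_of_le (by positivity)
      push_cast
      have : (0 : ℝ) ≤ N := Nat.cast_nonneg _
      have : (0 : ℝ) ≤ n2 := Nat.cast_nonneg _
      linarith
    · rw [mul_one_div, div_le_iff₀ (by positivity)]
      push_cast
      have h1 : 4 * R < N * ε := (div_lt_iff₀ hε).1 hN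
      have : (0 : ℝ) ≤ n2 := Nat.cast_nonneg _
      have : (0 : ℝ) ≤ n1 := Nat.cast_nonneg _
      nlinarith [mul_nonneg hε.le this, mul_nonneg hε.le (Nat.cast_nonneg (α := ℝ) n2)]
  obtain ⟨hn4, hn5⟩ := hn3''
  set δ3 : ℝ := 1 / ((n3 : ℝ) + 1) with hδ3
  have hδ3pos : 0 < δ3 := by positivity
  obtain ⟨L', hL'U, s, y, hpk, hen⟩ := hB _ (hU.inter_bx hL n2 (δ := ε / 4) (by positivity))
    Set.inter_subset_left n3
  have hL'1 : L' ∈ U := hL'U.1
  have hL'2 := hL'U.2
  have hA' := hA L' hL'1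
  -- the masses
  set m : ℕ → ℝ := fun i => max (ms lam L' (y i)) 0 with hm
  have hm0 : ∀ i, 0 ≤ m i := fun i => le_max_right _ _
  -- the part meeting `Bs`
  let meets : ℕ → Prop := fun i => ∃ b ∈ Bs, ev e b (y i) ≠ 0
  set J := s.filter fun i => ¬ meets i with hJ
  set I := s.filter fun i => meets i ∧ 0 < ms lam L' (y i) with hI
  have hsplit : en lam L' s y = ∑ i ∈ I, m i ^ 2 + en lam L' J y := by
    have h1 : en lam L' s y = ∑ i ∈ s.filter (fun i => meets i), m i ^ 2 +
        ∑ i ∈ s.filter (fun i => ¬ meets i), m i ^ 2 :=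
      (Finset.sum_filter_add_sum_filter_not s (fun i => meets i) _).symm
    rw [h1]
    congr 1
    rw [hI, Finset.sum_filter, Finset.sum_filter]
    refine Finset.sum_congr rfl fun i _ => ?_
    by_cases h2 : meets i
    · by_cases h3 : 0 < ms lam L' (y i)
      · rw [if_pos h2, if_pos ⟨h2, h3⟩]
      · rw [if_pos h2, if_neg (fun h => h3 h.2)]
        simp only [hm]
        rw [max_eq_right (not_lt.1 h3)]
        norm_num
    · rw [if_neg h2, if_neg (fun h => h2 h.1)]
  have hIs : I ⊆ s := Finset.filter_subset _ _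
  have hJs : J ⊆ s := Finset.filter_subset _ _
  have hIm : ∀ i ∈ I, m i = ms lam L' (y i) := fun i hi =>
    max_eq_left (Finset.mem_filter.1 hi).2.2.le
  have hImeet : ∀ i ∈ I, ∃ b ∈ Bs, ev e b (y i) ≠ 0 := fun i hi => (Finset.mem_filter.1 hi).2.1
  have hJmeet : ∀ i ∈ J, ∀ b ∈ Bs, ev e b (y i) = 0 := fun i hi b hb => by
    by_contra h
    exact (Finset.mem_filter.1 hi).2 ⟨b, hb, h⟩
  -- the neighbourhood of `Bs`
  let T : Set Q := {b | ∃ c ∈ Bs, ∀ j < n1, |e j b - e j c| ≤ 1 / (4 * ((n1 : ℝ) + 1))}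
  have hTBs : Bs ⊆ T := fun b hb => ⟨b, hb, fun j _ => by
    rw [sub_self, abs_zero]; positivity⟩
  have hTI : ∀ i ∈ I, ∀ b, ev e b (y i) ≠ 0 → b ∈ T := by
    intro i hi b hb
    obtain ⟨c, hc, hc'⟩ := hImeet i hi
    exact ⟨c, hc, fun j hj => (hpk.loc i (hIs hi) b c hb hc' j (lt_of_lt_of_le hj hn3')).trans hn4⟩
  have hTosc : ∀ b ∈ T, ∀ b' ∈ T, ∀ j < n1, |e j b - e j b'| ≤ 1 / ((n1 : ℝ) + 1) := by
    rintro b ⟨c, hc, h1⟩ b' ⟨c', hc', h2⟩ j hj
    have h3 := h1 j hj
    have h4 := h2 j hj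
    have h5 := hBs c hc c' hc' j hj
    have h6 : |e j b - e j b'| ≤ |e j b - e j c| + |e j c - e j c'| + |e j b' - e j c'| := by
      have h7 : e j b - e j b' = (e j b - e j c) + (e j c - e j c') - (e j b' - e j c') := by ring
      rw [h7]
      refine (abs_sub _ _).trans ?_
      have := abs_add_le (e j b - e j c) (e j c - e j c')
      linarith
    have h8 : 1 / (4 * ((n1 : ℝ) + 1)) + 1 / (2 * ((n1 : ℝ) + 1)) + 1 / (4 * ((n1 : ℝ) + 1))
        = 1 / ((n1 : ℝ) + 1) := by
      field_simp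
      norm_num
    linarith
  -- the basic inequality
  have key : ∀ w : ℕ →₀ ℝ, (∀ l ∈ w.support, n1 ≤ l) → (∀ b, ev e b w ≠ 0 → b ∈ T) →
      (∀ b, |ev e b w| + ∑ i ∈ J, |ev e b (y i)| ≤ 1) →
      (max (ms lam L' w) 0) ^ 2 ≤ ∑ i ∈ I, m i ^ 2 + 2 * η := by
    intro w hw1 hw2 hw3
    have h1 := en_insert (B := r + η) hA' (J := J) (y := y)
      (fun i hi l hl => hn3'.trans (hpk.lev i (hJs hi) l hl))
      (fun i hi b b' hb hb' j hj => ?_) hw1
      (fun b b' hb hb' j hj => hTosc b (hw2 b hb) b' (hw2 b' hb') j hj) hw3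
    · rw [hsplit] at hen
      linarith
    · refine (hpk.loc i (hJs hi) b b' hb hb' j (lt_of_lt_of_le hj hn3')).trans (hn4.trans ?_)
      apply one_div_le_one_div_of_le (by positivity)
      have : (0 : ℝ) ≤ n1 := Nat.cast_nonneg _
      linarith
  set q : ℝ := ε / 2 with hq
  have hqpos : 0 < q := by positivity
  -- reduction to a normalised statement for `L'`
  suffices hmain : ∃ z : Q, ∀ x : ℕ →₀ ℝ, one x ≤ 1 →
      (∀ l ∈ x.support, n1 ≤ l ∧ l < n2 ∧ ∀ b, e l b ≠ 0 → b ∈ Bs) →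
      pr L' x ≤ lam * one x + R * |ev e z x| + R * δ3 + q by
    obtain ⟨z, hz⟩ := hmain
    refine ⟨z, fun x hx => ?_⟩
    have h0 : |pr L x - pr L' x| ≤ ε / 4 * one x := abs_pr_sub_le fun l hl => by
      rw [abs_sub_comm]
      exact (hL'2 l (hx l hl).2.1).le
    have h0' := (abs_le.1 h0).2
    rcases (one_nonneg x).eq_or_lt with h1 | h1
    · have h2 : x = 0 := by
        ext l
        by_contra h3
        have h4 : |x l| ≤ one x := by
          rw [one_eq_sum]
          exact Finset.single_le_sum (f := fun l => |x l|) (fun _ _ => abs_nonneg _)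
            (Finsupp.mem_support_iff.2 h3)
        rw [← h1] at h4
        exact h3 (abs_nonpos_iff.1 h4)
      subst h2
      simp [one_zero]
    · have h2 := hz ((one x)⁻¹ • x) (by
        rw [one_smul', abs_of_pos (inv_pos.2 h1), inv_mul_cancel₀ h1.ne']) (by
        intro l hl
        exact hx l (Finsupp.support_smul hl))
      rw [one_smul', abs_of_pos (inv_pos.2 h1), inv_mul_cancel₀ h1.ne', map_smul, map_smul,
        smul_eq_mul, smul_eq_mul, abs_mul, abs_of_pos (inv_pos.2 h1)] at h2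
      have h3 : one x * ((one x)⁻¹ * pr L' x) ≤
          one x * (lam * 1 + R * ((one x)⁻¹ * |ev e z x|) + R * δ3 + q) :=
        mul_le_mul_of_nonneg_left h2 h1.le
      have h4 : one x * ((one x)⁻¹ * pr L' x) = pr L' x := by
        rw [← mul_assoc, mul_inv_cancel₀ h1.ne', one_mul]
      have h5 : one x * (lam * 1 + R * ((one x)⁻¹ * |ev e z x|) + R * δ3 + q) =
          lam * one x + R * |ev e z x| * (one x * (one x)⁻¹) + (R * δ3 + q) * one x := by ring
      rw [h4, h5, mul_inv_cancel₀ h1.ne', mul_one] at h3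
      have h6 : (R * δ3 + q) * one x ≤ (ε / 4 + ε / 2) * one x :=
        mul_le_mul_of_nonneg_right (by linarith) h1.le
      linarith
  have hevBs : ∀ x : ℕ →₀ ℝ, (∀ l ∈ x.support, n1 ≤ l ∧ l < n2 ∧ ∀ b, e l b ≠ 0 → b ∈ Bs) →
      ∀ b, b ∉ Bs → ev e b x = 0 := by
    intro x hx b hb
    rw [ev_eq_sum]
    refine Finset.sum_eq_zero fun l hl => ?_
    by_contra h
    exact hb ((hx l hl).2.2 b (fun h0 => h (by rw [h0, mul_zero])))
  have hevone : ∀ (x : ℕ →₀ ℝ) (b : Q), |ev e b x| ≤ one x := by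
    intro x b
    have := abs_pr_le (L := fun l => e l b) (x := x) (δ := 1) (fun l _ => he1 l b)
    simpa [ev] using this
  have hJsm : ∀ b, ∑ i ∈ J, |ev e b (y i)| ≤ 1 := fun b =>
    (Finset.sum_le_sum_of_subset_of_nonneg hJs fun _ _ _ => abs_nonneg _).trans (hpk.sm b)
  have hJBs : ∀ b ∈ Bs, ∑ i ∈ J, |ev e b (y i)| = 0 := fun b hb =>
    Finset.sum_eq_zero fun i hi => by rw [hJmeet i hi b hb, abs_zero]
  by_cases hIne : I.Nonempty
  · -- there is a main atom
    obtain ⟨i0, hi0, hmax⟩ := Finset.exists_max_image I m hIne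
    obtain ⟨z, hzB, hz⟩ := hImeet i0 hi0
    -- total mass
    have hT : ∑ i ∈ I, m i ≤ m i0 + q := by
      have h1 := key (∑ i ∈ I, y i) (fun l hl => ?_) (fun b hb => ?_) (fun b => ?_)
      · have h2 : ∑ i ∈ I, m i ≤ ms lam L' (∑ i ∈ I, y i) := by
          rw [Finset.sum_congr rfl hIm]
          exact sum_ms_le hlam _ _ _
        have h3 : (∑ i ∈ I, m i) ^ 2 ≤ ∑ i ∈ I, m i ^ 2 + 2 * η := by
          refine le_trans ?_ h1
          exact pow_le_pow_left₀ (Finset.sum_nonneg fun _ _ => hm0 _) (h2.trans (le_max_left _ _)) 2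
        have h4 : ∑ i ∈ I, m i ^ 2 ≤ m i0 * ∑ i ∈ I, m i := by
          rw [Finset.mul_sum]
          refine Finset.sum_le_sum fun i hi => ?_
          rw [sq]
          exact mul_le_mul_of_nonneg_right (hmax i hi) (hm0 i)
        set t := ∑ i ∈ I, m i with ht
        have ht0 : 0 ≤ t := Finset.sum_nonneg fun _ _ => hm0 _
        have h5 : t ^ 2 ≤ m i0 * t + q ^ 2 := by linarith
        by_contra h6
        rw [not_le] at h6
        nlinarith [hm0 i0]
      · have h2 : l ∈ I.biUnion fun i => (y i).support := Finsupp.support_finsetSum hl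
        obtain ⟨i, hi, hil⟩ := Finset.mem_biUnion.1 h2
        exact hn3'.trans (hpk.lev i (hIs hi) l hil)
      · rw [map_sum] at hb
        obtain ⟨i, hi, hib⟩ := Finset.exists_ne_zero_of_sum_ne_zero hb
        exact hTI i hi b hib
      · refine le_trans ?_ (hpk.sm b)
        rw [map_sum]
        have hdis : Disjoint I J := by
          rw [Finset.disjoint_left]
          intro i hi hi'
          exact (Finset.mem_filter.1 hi').2 (Finset.mem_filter.1 hi).2.1
        calc |∑ i ∈ I, ev e b (y i)| + ∑ i ∈ J, |ev e b (y i)|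
            ≤ ∑ i ∈ I, |ev e b (y i)| + ∑ i ∈ J, |ev e b (y i)| := by
              gcongr
              exact Finset.abs_sum_le_sum_abs _ _
          _ = ∑ i ∈ I ∪ J, |ev e b (y i)| := (Finset.sum_union hdis).symm
          _ ≤ _ := Finset.sum_le_sum_of_subset_of_nonneg (Finset.union_subset hIs hJs)
              fun _ _ _ => abs_nonneg _
    have hS : ∑ i ∈ I, m i ^ 2 + 2 * η ≤ (m i0 + q) ^ 2 := by
      have h4 : ∑ i ∈ I, m i ^ 2 ≤ m i0 * ∑ i ∈ I, m i := by
        rw [Finset.mul_sum]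
        refine Finset.sum_le_sum fun i hi => ?_
        rw [sq]
        exact mul_le_mul_of_nonneg_right (hmax i hi) (hm0 i)
      have h5 : m i0 * ∑ i ∈ I, m i ≤ m i0 * (m i0 + q) := mul_le_mul_of_nonneg_left hT (hm0 _)
      nlinarith [hm0 i0, mul_nonneg (hm0 i0) hqpos.le]
    refine ⟨z, fun x hx1 hx => ?_⟩
    set v := |ev e z x| with hv
    set β := max (1 - v - δ3) 0 with hβ
    have hβ0 : 0 ≤ β := le_max_right _ _
    have hβ1 : β ≤ 1 := max_le (by linarith [abs_nonneg (ev e z x)]) zero_le_one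
    have h1 := key (x + β • y i0) (fun l hl => ?_) (fun b hb => ?_) (fun b => ?_)
    · have h2 : ms lam L' (x + β • y i0) ≤ m i0 + q :=
        le_of_sq_le (by linarith [hm0 i0]) (h1.trans hS)
      have h3 : ms lam L' x + β * m i0 ≤ ms lam L' (x + β • y i0) := by
        rw [hIm i0 hi0]
        unfold ms
        have h4 := one_add x (β • y i0)
        rw [one_smul', abs_of_nonneg hβ0] at h4
        rw [map_add, map_smul, smul_eq_mul]
        have h5 := mul_le_mul_of_nonneg_left h4 hlam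
        linarith
      have h4 : (1 - v - δ3) * m i0 ≤ β * m i0 := mul_le_mul_of_nonneg_right (le_max_left _ _) (hm0 _)
      have h5 : m i0 ≤ R := by
        refine le_trans ?_ (sum_mass_le hlam hC (hU.sub hL'1) hpk)
        exact Finset.single_le_sum (f := m) (fun i _ => hm0 i) (hIs hi0)
      have h6 : (v + δ3) * m i0 ≤ (v + δ3) * R :=
        mul_le_mul_of_nonneg_left h5 (by have := abs_nonneg (ev e z x); linarith)
      unfold ms at h3 h2
      linarith
    · rcases Finset.mem_union.1 (Finsupp.support_add hl) with h | h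
      · exact (hx l h).1
      · exact hn3'.trans (hpk.lev i0 (hIs hi0) l (Finsupp.support_smul h))
    · by_cases hb2 : b ∈ Bs
      · exact hTBs hb2
      · refine hTI i0 hi0 b fun h => hb ?_
        rw [map_add, map_smul, hevBs x hx b hb2, h, smul_zero, add_zero]
    · by_cases hb2 : b ∈ Bs
      · rw [hJBs b hb2, add_zero]
        by_cases hb3 : ev e b (y i0) = 0
        · rw [map_add, map_smul, hb3, smul_zero, add_zero]
          exact (hevone x b).trans hx1
        · -- both in the support of `y i0`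
          have h2 : |ev e b x - ev e z x| ≤ δ3 := by
            have h3 := abs_pr_sub_le (L := fun l => e l b) (L' := fun l => e l z) (x := x) (δ := δ3)
              (fun l hl => hpk.loc i0 (hIs hi0) b z hb3 hz l
                (lt_of_lt_of_le (hx l hl).2.1 hn3))
            refine h3.trans ?_
            calc δ3 * one x ≤ δ3 * 1 := mul_le_mul_of_nonneg_left hx1 hδ3pos.le
              _ = δ3 := mul_one _
          have h3 : |ev e b x| ≤ v + δ3 := by
            have h4 : |ev e b x| ≤ |ev e b x - ev e z x| + |ev e z x| := by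
              have := abs_add_le (ev e b x - ev e z x) (ev e z x)
              simpa using this
            linarith
          have h4 : |ev e b (y i0)| ≤ 1 :=
            (Finset.single_le_sum (f := fun i => |ev e b (y i)|) (fun _ _ => abs_nonneg _)
              (hIs hi0)).trans (hpk.sm b)
          have h5 : |ev e b (x + β • y i0)| ≤ |ev e b x| + β := by
            rw [map_add, map_smul, smul_eq_mul]
            refine (abs_add_le _ _).trans ?_
            rw [abs_mul, abs_of_nonneg hβ0]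
            nlinarith
          rcases le_total (1 - v - δ3) 0 with h6 | h6
          · have h7 : β = 0 := max_eq_right h6
            have := (hevone x b).trans hx1
            linarith
          · have h7 : β = 1 - v - δ3 := max_eq_left h6
            linarith
      · rw [map_add, map_smul, hevBs x hx b hb2, zero_add, smul_eq_mul, abs_mul, abs_of_nonneg hβ0]
        have hi0J : i0 ∉ J := fun h => (Finset.mem_filter.1 h).2 (Finset.mem_filter.1 hi0).2.1
        have h2 : |ev e b (y i0)| + ∑ i ∈ J, |ev e b (y i)| ≤ 1 := by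
          have h9 := Finset.sum_insert (f := fun i => |ev e b (y i)|) hi0J
          rw [← h9]
          refine le_trans (Finset.sum_le_sum_of_subset_of_nonneg ?_ fun _ _ _ => abs_nonneg _)
            (hpk.sm b)
          exact Finset.insert_subset (hIs hi0) hJs
        have h3 : β * |ev e b (y i0)| ≤ 1 * |ev e b (y i0)| :=
          mul_le_mul_of_nonneg_right hβ1 (abs_nonneg _)
        linarith
  · -- no atom near `Bs`
    rw [Finset.not_nonempty_iff_eq_empty] at hIne
    refine ⟨Classical.arbitrary Q, fun x hx1 hx => ?_⟩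
    have h1 := key x (fun l hl => (hx l hl).1) (fun b hb => ?_) (fun b => ?_)
    · rw [hIne, Finset.sum_empty, zero_add] at h1
      have h2 : ms lam L' x ≤ q := le_of_sq_le hqpos.le (h1.trans hηε)
      unfold ms at h2
      have h3 : 0 ≤ R * |ev e (Classical.arbitrary Q) x| := by positivity
      have h4 : 0 ≤ R * δ3 := by positivity
      linarith
    · by_contra h
      exact hb (hevBs x hx b fun h' => h (hTBs h'))
    · by_cases hb : b ∈ Bs
      · rw [hJBs b hb, add_zero]
        exact (hevone x b).trans hx1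
      · rw [hevBs x hx b hb, abs_zero, zero_add]
        exact hJsm b

end Pool.Agent.H791R2.Cp
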