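import Pool.Agent.H791R2.B2

set_option autoImplicit false

/-!
# Small oscillation
-/

namespace Pool.Agent.H791R2.Cp

variable {Q : Type*}

lemma Nb.refl_of_convex {C : Set (ℕ → ℝ)} (h : Convex ℝ C) (hne : C.Nonempty) : Nb C C :=
  ⟨subset_rfl, hne, h, fun _ _ => ⟨0, 1, one_pos, fun _ h _ => h⟩⟩

lemma bd_abs_le {e : ℕ → Q → ℝ} (he1 : ∀ l b, |e l b| ≤ 1) {R lam : ℝ} {C : Set (ℕ → ℝ)}
    (hC : Bd e R lam C) {L : ℕ → ℝ} (hL : L ∈ C) (l : ℕ) : |L l| ≤ R + lam := by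
  have h1 := hC L hL (Finsupp.single l 1) 1 (fun b => by rw [ev_single, one_mul]; exact he1 l b)
  have h2 := hC L hL (Finsupp.single l (-1)) 1 (fun b => by
    rw [ev_single, neg_one_mul, abs_neg]; exact he1 l b)
  rw [pr_single, one_single] at h1 h2
  rw [abs_le]
  norm_num at h1 h2
  constructor <;> linarith

/-- energy minimal parts -/
lemma exists_min {e : ℕ → Q → ℝ} {C U0 : Set (ℕ → ℝ)} (hU0 : Nb C U0) {R lam η : ℝ}
    (hlam : 0 ≤ lam) (hC : Bd e R lam C) (hη : 0 < η) :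
    ∃ (r : ℝ) (U : Set (ℕ → ℝ)) (n1 : ℕ), Nb C U ∧ U ⊆ U0 ∧
      (∀ L ∈ U, ∀ s y, Pk e n1 s y → en lam L s y ≤ r + η) ∧
      (∀ U', Nb C U' → U' ⊆ U → ∀ n', ∃ L ∈ U', ∃ s y, Pk e n' s y ∧ r - η < en lam L s y) := by
  set S : Set ℝ := {r | ∃ U, Nb C U ∧ U ⊆ U0 ∧ ∃ n, ∀ L ∈ U, ∀ s y, Pk e n s y →
    en lam L s y ≤ r} with hS
  have h1 : R ^ 2 ∈ S := ⟨U0, hU0, subset_rfl, 0, fun L hL s y h => en_le hlam hC (hU0.sub hL) h⟩
  have h2 : BddBelow S := by
    refine ⟨0, ?_⟩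
    rintro r ⟨U, hU, -, n, h⟩
    obtain ⟨L, hL⟩ := hU.ne
    have h3 := h L hL ∅ 0 ⟨fun i hi => absurd hi (Finset.notMem_empty i),
      fun i hi => absurd hi (Finset.notMem_empty i), fun b => by simp⟩
    simpa [en] using h3
  obtain ⟨r', ⟨U, hU, hUU, n, h3⟩, hr'⟩ := Real.lt_sInf_add_pos ⟨_, h1⟩ hη
  refine ⟨sInf S, U, n, hU, hUU, fun L hL s y h => (h3 L hL s y h).trans hr'.le, ?_⟩
  intro U' hU' hU'U n'
  by_contra hcon
  push Not at hcon
  have h4 : sInf S - η ∈ S := ⟨U', hU', hU'U.trans hUU, n', fun L hL s y h => hcon L hL s y h⟩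
  have h5 := csInf_le h2 h4
  linarith

/-- an arithmetic lemma -/
lemma arith {R s lam a a' c c' u v u' v' δ : ℝ} (hR : 0 < R) (hlam : 0 < lam) (hs : 4 * lam ≤ s)
    (ha : s - lam / 5 ≤ |a|) (ha' : s - lam / 5 ≤ |a'|) (haa : |a - a'| ≤ lam / 5)
    (ha'2 : |a'| ≤ s + lam / 10) (hc : |c| ≤ s + lam / 10) (hc' : |c'| ≤ s + lam / 10)
    (hu : |a| ≤ R * |u| + lam) (hu' : |a'| ≤ R * |u'| + lam)
    (h1 : |v * a - u * c| ≤ lam * (|v| + |u|)) (h2 : |v' * a' - u' * c'| ≤ lam * (|v'| + |u'|))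
    (hδu : |u - u'| ≤ δ) (hδv : |v - v'| ≤ δ) (hδ : δ * (15 * R * (s + lam)) ≤ lam ^ 2) :
    |c - c'| ≤ 7 * lam := by
  have hu0 : 2 * lam ≤ R * |u| := by linarith
  have hu0' : 2 * lam ≤ R * |u'| := by linarith
  have hup : 0 < |u| := by
    by_contra h
    have : |u| = 0 := le_antisymm (not_lt.1 h) (abs_nonneg _)
    rw [this, mul_zero] at hu0
    linarith
  have hup' : 0 < |u'| := by
    by_contra h
    have : |u'| = 0 := le_antisymm (not_lt.1 h) (abs_nonneg _)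
    rw [this, mul_zero] at hu0'
    linarith
  have hune : u ≠ 0 := abs_pos.1 hup
  have hune' : u' ≠ 0 := abs_pos.1 hup'
  have hδ0 : 0 ≤ δ := (abs_nonneg _).trans hδu
  -- ratios
  have key : ∀ {u v a c : ℝ}, 0 < |u| → s - lam / 5 ≤ |a| → |c| ≤ s + lam / 10 →
      |v * a - u * c| ≤ lam * (|v| + |u|) → |v / u| ≤ 2 ∧ |v / u * a - c| ≤ 3 * lam := by
    intro u v a c hup ha hc h1
    have hune : u ≠ 0 := abs_pos.1 hup
    have h3 : |v / u * a - c| ≤ lam * (|v / u| + 1) := by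
      have h4 : v / u * a - c = (v * a - u * c) / u := by field_simp
      rw [h4, abs_div, div_le_iff₀ hup, abs_div]
      have h5 : lam * (|v| / |u| + 1) * |u| = lam * (|v| + |u|) := by field_simp
      rw [h5]
      exact h1
    have h4 : |v / u| * |a| ≤ |c| + lam * (|v / u| + 1) := by
      rw [← abs_mul]
      have := abs_sub_abs_le_abs_sub (v / u * a) c
      linarith
    have h5 : |v / u| ≤ 2 := by
      by_contra h6
      rw [not_le] at h6
      have h7 : |v / u| * (s - lam / 5) ≤ |v / u| * |a| :=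
        mul_le_mul_of_nonneg_left ha (abs_nonneg _)
      nlinarith
    refine ⟨h5, h3.trans ?_⟩
    nlinarith
  obtain ⟨hr1, hr2⟩ := key hup ha hc h1
  obtain ⟨hr1', hr2'⟩ := key hup' ha' hc' h2
  have h3 : |v / u - v' / u'| * |u| ≤ 3 * δ := by
    have h4 : (v / u - v' / u') * u = (v - v') + v' / u' * (u' - u) := by
      field_simp
      ring
    rw [← abs_mul, h4]
    refine (abs_add_le _ _).trans ?_
    rw [abs_mul, abs_sub_comm u' u]
    have := mul_le_mul hr1' hδu (abs_nonneg _) (by norm_num)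
    linarith
  have h4 : |v / u - v' / u'| * |a'| ≤ lam / 5 := by
    have h5 : |v / u - v' / u'| * (2 * lam) ≤ 3 * δ * R := by
      calc |v / u - v' / u'| * (2 * lam) ≤ |v / u - v' / u'| * (R * |u|) :=
            mul_le_mul_of_nonneg_left hu0 (abs_nonneg _)
        _ = (|v / u - v' / u'| * |u|) * R := by ring
        _ ≤ _ := mul_le_mul_of_nonneg_right h3 hR.le
    have h6 : |v / u - v' / u'| * |a'| ≤ |v / u - v' / u'| * (s + lam) :=
      mul_le_mul_of_nonneg_left (by linarith) (abs_nonneg _)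
    refine h6.trans ?_
    have h7 : 0 < s + lam := by linarith
    have h8 : (|v / u - v' / u'| * (s + lam)) * (2 * lam) ≤ (lam / 5) * (2 * lam) := by
      calc (|v / u - v' / u'| * (s + lam)) * (2 * lam)
          = (|v / u - v' / u'| * (2 * lam)) * (s + lam) := by ring
        _ ≤ 3 * δ * R * (s + lam) := mul_le_mul_of_nonneg_right h5 h7.le
        _ = δ * (15 * R * (s + lam)) / 5 := by ring
        _ ≤ lam ^ 2 / 5 := by linarith
        _ ≤ (lam / 5) * (2 * lam) := by nlinarith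
    exact le_of_mul_le_mul_right h8 (by positivity)
  have h5 : c - c' = -(v / u * a - c) + (v / u * (a - a')) + ((v / u - v' / u') * a')
      + (v' / u' * a' - c') := by ring
  rw [h5]
  have h6 : |v / u * (a - a')| ≤ 2 * (lam / 5) := by
    rw [abs_mul]
    exact mul_le_mul hr1 haa (abs_nonneg _) (by norm_num)
  have h7 : |(v / u - v' / u') * a'| ≤ lam / 5 := by rw [abs_mul]; exact h4
  have h8 := abs_add_le (-(v / u * a - c) + (v / u * (a - a')) + ((v / u - v' / u') * a'))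
    (v' / u' * a' - c')
  have h9 := abs_add_le (-(v / u * a - c) + (v / u * (a - a'))) ((v / u - v' / u') * a')
  have h10 := abs_add_le (-(v / u * a - c)) (v / u * (a - a'))
  rw [abs_neg] at h10
  linarith

end Pool.Agent.H791R2.Cp
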