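import Pool.Agent.H791R2.C

set_option autoImplicit false

/-!
# Small oscillation, regions
-/

namespace Pool.Agent.H791R2.Cp

variable {Q : Type*}

/-- small oscillation of `e j` on the support of `e l` -/
def Osc (e : ℕ → Q → ℝ) : Prop := ∀ (j : ℕ) (δ : ℝ), 0 < δ → ∃ l0, ∀ l ≥ l0, ∀ b b',
  e l b ≠ 0 → e l b' ≠ 0 → |e j b - e j b'| ≤ δ

/-- local purity in a region -/
def Pure (e : ℕ → Q → ℝ) (R lam : ℝ) (n1 : ℕ) (U : Set (ℕ → ℝ)) (Bs : Set Q) : Prop :=
  ∀ L ∈ U, ∀ n2 : ℕ, ∃ z : Q, ∀ x : ℕ →₀ ℝ,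
    (∀ l ∈ x.support, n1 ≤ l ∧ l < n2 ∧ ∀ b, e l b ≠ 0 → b ∈ Bs) →
      pr L x ≤ R * |ev e z x| + lam * one x

lemma Pure.use {e : ℕ → Q → ℝ} {R lam : ℝ} (hlam : 0 ≤ lam) {n1 : ℕ} {U : Set (ℕ → ℝ)} {Bs : Set Q}
    (h : Pure e R lam n1 U Bs) {L : ℕ → ℝ} (hL : L ∈ U) (n2 : ℕ) : ∃ z : Q,
      (∀ l, n1 ≤ l → l < n2 → (∀ b, e l b ≠ 0 → b ∈ Bs) → |L l| ≤ R * |e l z| + lam) ∧
      ∀ j k, n1 ≤ j → j < n2 → (∀ b, e j b ≠ 0 → b ∈ Bs) → n1 ≤ k → k < n2 →
        (∀ b, e k b ≠ 0 → b ∈ Bs) → |e k z * L j - e j z * L k| ≤ lam * (|e k z| + |e j z|) := by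
  obtain ⟨z, hz⟩ := h L hL n2
  refine ⟨z, fun l hl1 hl2 hl3 => ?_, fun j k hj1 hj2 hj3 hk1 hk2 hk3 => ?_⟩
  · have hs : ∀ a : ℝ, ∀ i ∈ (Finsupp.single l a).support, n1 ≤ i ∧ i < n2 ∧
        ∀ b, e i b ≠ 0 → b ∈ Bs := by
      intro a i hi
      have := Finsupp.support_single_subset hi
      rw [Finset.mem_singleton] at this
      subst this
      exact ⟨hl1, hl2, hl3⟩
    have h1 := hz _ (hs 1)
    have h2 := hz _ (hs (-1))
    rw [pr_single, ev_single, one_single] at h1 h2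
    norm_num at h1 h2
    exact abs_le.2 ⟨by linarith, by linarith⟩
  · have main : ∀ c d : ℝ, c * e j z + d * e k z = 0 →
        c * L j + d * L k ≤ lam * (|c| + |d|) := by
      intro c d hcd
      have h1 := hz (Finsupp.single j c + Finsupp.single k d) (by
        intro i hi
        rcases Finset.mem_union.1 (Finsupp.support_add hi) with h | h
        · have := Finsupp.support_single_subset h
          rw [Finset.mem_singleton] at this
          subst this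
          exact ⟨hj1, hj2, hj3⟩
        · have := Finsupp.support_single_subset h
          rw [Finset.mem_singleton] at this
          subst this
          exact ⟨hk1, hk2, hk3⟩)
      rw [map_add, map_add, pr_single, pr_single, ev_single, ev_single, hcd, abs_zero, mul_zero,
        zero_add] at h1
      refine h1.trans (mul_le_mul_of_nonneg_left ?_ hlam)
      have := one_add (Finsupp.single j c) (Finsupp.single k d)
      rwa [one_single, one_single] at this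
    have h1 := main (e k z) (-e j z) (by ring)
    have h2 := main (-e k z) (e j z) (by ring)
    rw [abs_neg] at h1 h2
    exact abs_le.2 ⟨by linarith, by linarith⟩

/-- one region -/
lemma region {e : ℕ → Q → ℝ} (hosc : Osc e) {C U : Set (ℕ → ℝ)} (hU : Nb C U) {R lam M : ℝ}
    (hR : 0 < R) (hlam : 0 < lam) (hM : ∀ L ∈ C, ∀ l, |L l| ≤ M) {n1 : ℕ} {Bs : Set Q}
    (hP : Pure e R lam n1 U Bs) : ∃ U', Nb C U' ∧ U' ⊆ U ∧ ∃ n, ∀ L ∈ U', ∀ L' ∈ U', ∀ l ≥ n,
      (∀ b, e l b ≠ 0 → b ∈ Bs) → |L l - L' l| ≤ 8 * lam := by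
  classical
  set S : Set ℝ := {t | ∃ U', Nb C U' ∧ U' ⊆ U ∧ ∃ n, n1 ≤ n ∧ 0 ≤ t ∧ ∀ L ∈ U', ∀ l ≥ n,
    (∀ b, e l b ≠ 0 → b ∈ Bs) → |L l| ≤ t} with hS
  have hM0 : 0 ≤ M := by
    obtain ⟨L, hL⟩ := hU.ne
    exact (abs_nonneg _).trans (hM L (hU.sub hL) 0)
  have hS1 : M ∈ S := ⟨U, hU, subset_rfl, n1, le_rfl, hM0, fun L hL l _ _ => hM L (hU.sub hL) l⟩
  have hS2 : BddBelow S := ⟨0, by rintro t ⟨_, _, _, _, _, h, _⟩; exact h⟩
  have hS3 : 0 ≤ sInf S := le_csInf ⟨_, hS1⟩ (by rintro t ⟨_, _, _, _, _, h, _⟩; exact h)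
  by_cases hcase : sInf S < 4 * lam
  · obtain ⟨t, ⟨U', hU', hU'U, n, _, _, h⟩, ht⟩ := exists_lt_of_csInf_lt ⟨_, hS1⟩ hcase
    refine ⟨U', hU', hU'U, n, fun L hL L' hL' l hl hb => ?_⟩
    have h1 := h L hL l hl hb
    have h2 := h L' hL' l hl hb
    have h3 : |L l - L' l| ≤ |L l| + |L' l| := abs_sub _ _
    linarith
  rw [not_lt] at hcase
  set s := sInf S with hs
  obtain ⟨t, ⟨U2, hU2, hU2U, n4, hn4, ht0, h⟩, ht⟩ := Real.lt_sInf_add_pos ⟨_, hS1⟩
    (show (0 : ℝ) < lam / 10 by positivity)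
  rw [← hs] at ht
  -- large coordinates
  have big : ∀ U', Nb C U' → U' ⊆ U → ∀ n, ∃ L ∈ U', ∃ l, n ≤ l ∧ n1 ≤ l ∧
      (∀ b, e l b ≠ 0 → b ∈ Bs) ∧ s - lam / 10 < |L l| := by
    intro U' hU' hU'U n
    by_contra hcon
    push Not at hcon
    have h1 : s - lam / 10 ∈ S := ⟨U', hU', hU'U, max n n1, le_max_right _ _, by linarith,
      fun L hL l hl hb => hcon L hL l ((le_max_left _ _).trans hl) ((le_max_right _ _).trans hl) hb⟩
    have h2 := csInf_le hS2 h1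
    rw [← hs] at h2
    linarith
  obtain ⟨L1, hL1, j, hj4, hj1, hjB, hLj⟩ := big U2 hU2 hU2U n4
  have hU3 := hU2.inter_bx hL1 (j + 1) (δ := lam / 10) (by positivity)
  set U3 := U2 ∩ bx L1 (j + 1) (lam / 10) with hU3def
  refine ⟨U3, hU3, fun L hL => hU2U hL.1, j + 1, ?_⟩
  intro L hL L' hL' k hk hkB
  have hk1 : n1 ≤ k := by omega
  -- precision
  set δ : ℝ := lam ^ 2 / (15 * R * (s + lam)) / 2 with hδ
  have hδpos : 0 < δ := by positivity
  obtain ⟨a1, ha1⟩ := hosc j δ hδpos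
  obtain ⟨a2, ha2⟩ := hosc k δ hδpos
  set k1 := max (max a1 a2) (k + 1) with hk1def
  have hk1a1 : a1 ≤ k1 := (le_max_left _ _).trans (le_max_left _ _)
  have hk1a2 : a2 ≤ k1 := (le_max_right _ _).trans (le_max_left _ _)
  have hk1k : k < k1 := lt_of_lt_of_le (Nat.lt_succ_self k) (le_max_right _ _)
  obtain ⟨L4, hL4, l0, hl0, hl01, hl0B, hLl0⟩ := big _ (hU3.inter_bx hL (k + 1) (δ := lam / 10)
    (by positivity)) (fun L hL => hU2U hL.1.1) k1
  obtain ⟨L5, hL5, l1, hl1, hl11, hl1B, hLl1⟩ := big _ (hU3.inter_bx hL' (k + 1) (δ := lam / 10)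
    (by positivity)) (fun L hL => hU2U hL.1.1) k1
  have hL4U : L4 ∈ U := hU2U hL4.1.1
  have hL5U : L5 ∈ U := hU2U hL5.1.1
  set M4 : ℕ → ℝ := (1 / 2 : ℝ) • L4 + (1 / 2 : ℝ) • L5 with hM4
  have hM4U : M4 ∈ U := hU.conv hL4U hL5U (by norm_num) (by norm_num) (by norm_num)
  have hM4l : ∀ l, M4 l = (L4 l + L5 l) / 2 := fun l => by
    simp only [hM4, Pi.add_apply, Pi.smul_apply, smul_eq_mul]; ring
  set n2 := l0 + l1 + k + j + 1 with hn2
  obtain ⟨z, hz1, hz2⟩ := hP.use hlam.le hL4U n2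
  obtain ⟨z', hz1', hz2'⟩ := hP.use hlam.le hL5U n2
  obtain ⟨z'', hz1'', -⟩ := hP.use hlam.le hM4U n2
  have e1 : e l0 z ≠ 0 := by
    intro h0
    have := hz1 l0 hl01 (by omega) hl0B
    rw [h0, abs_zero, mul_zero, zero_add] at this
    linarith
  have e2 : e l1 z' ≠ 0 := by
    intro h0
    have := hz1' l1 hl11 (by omega) hl1B
    rw [h0, abs_zero, mul_zero, zero_add] at this
    linarith
  -- the positions are close
  have close : |e j z - e j z'| ≤ 2 * δ ∧ |e k z - e k z'| ≤ 2 * δ := by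
    by_cases c1 : e l0 z' ≠ 0
    · have h1 := ha1 l0 (hk1a1.trans hl0) z z' e1 c1
      have h2 := ha2 l0 (hk1a2.trans hl0) z z' e1 c1
      constructor <;> linarith
    by_cases c2 : e l1 z ≠ 0
    · have h1 := ha1 l1 (hk1a1.trans hl1) z z' c2 e2
      have h2 := ha2 l1 (hk1a2.trans hl1) z z' c2 e2
      constructor <;> linarith
    rw [not_not] at c1 c2
    have d1 : e l0 z'' ≠ 0 := by
      intro h0
      have h1 := hz1'' l0 hl01 (by omega) hl0B
      rw [h0, abs_zero, mul_zero, zero_add, hM4l, abs_div, abs_two] at h1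
      have h2 := hz1' l0 hl01 (by omega) hl0B
      rw [c1, abs_zero, mul_zero, zero_add] at h2
      have h3 : |L4 l0| ≤ |L4 l0 + L5 l0| + |L5 l0| := by
        have := abs_sub (L4 l0 + L5 l0) (L5 l0)
        simpa using this
      linarith
    have d2 : e l1 z'' ≠ 0 := by
      intro h0
      have h1 := hz1'' l1 hl11 (by omega) hl1B
      rw [h0, abs_zero, mul_zero, zero_add, hM4l, abs_div, abs_two] at h1
      have h2 := hz1 l1 hl11 (by omega) hl1B
      rw [c2, abs_zero, mul_zero, zero_add] at h2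
      have h3 : |L5 l1| ≤ |L4 l1 + L5 l1| + |L4 l1| := by
        have := abs_sub (L4 l1 + L5 l1) (L4 l1)
        simpa using this
      linarith
    have h1 := ha1 l0 (hk1a1.trans hl0) z z'' e1 d1
    have h2 := ha2 l0 (hk1a2.trans hl0) z z'' e1 d1
    have h3 := ha1 l1 (hk1a1.trans hl1) z' z'' e2 d2
    have h4 := ha2 l1 (hk1a2.trans hl1) z' z'' e2 d2
    have h5 : |e j z - e j z'| ≤ |e j z - e j z''| + |e j z'' - e j z'| := abs_sub_le _ _ _
    have h6 : |e k z - e k z'| ≤ |e k z - e k z''| + |e k z'' - e k z'| := abs_sub_le _ _ _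
    rw [abs_sub_comm (e j z'')] at h5
    rw [abs_sub_comm (e k z'')] at h6
    constructor <;> linarith
  -- the early coordinate
  have f4 : |L4 j - L1 j| < lam / 10 := hL4.1.2 j (Nat.lt_succ_self j)
  have f5 : |L5 j - L1 j| < lam / 10 := hL5.1.2 j (Nat.lt_succ_self j)
  have g4 : |L4 k - L k| < lam / 10 := hL4.2 k (Nat.lt_succ_self k)
  have g5 : |L5 k - L' k| < lam / 10 := hL5.2 k (Nat.lt_succ_self k)
  have b4 : |L1 j| - |L4 j| ≤ |L4 j - L1 j| := by
    rw [abs_sub_comm]; exact abs_sub_abs_le_abs_sub _ _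
  have b5 : |L1 j| - |L5 j| ≤ |L5 j - L1 j| := by
    rw [abs_sub_comm]; exact abs_sub_abs_le_abs_sub _ _
  have main : |L4 k - L5 k| ≤ 7 * lam := by
    refine arith (R := R) (s := s) (a := L4 j) (a' := L5 j) (u := e j z) (v := e k z)
      (u' := e j z') (v' := e k z') (δ := 2 * δ) hR hlam hcase (by linarith) (by linarith) ?_
      ?_ ?_ ?_ ?_ ?_ ?_ ?_ close.1 close.2 ?_
    · have : |L4 j - L5 j| ≤ |L4 j - L1 j| + |L1 j - L5 j| := abs_sub_le _ _ _
      rw [abs_sub_comm (L1 j)] at this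
      linarith
    · have := h L5 hL5.1.1 j hj4 hjB
      linarith
    · have := h L4 hL4.1.1 k (by omega) hkB
      linarith
    · have := h L5 hL5.1.1 k (by omega) hkB
      linarith
    · exact hz1 j hj1 (by omega) hjB
    · exact hz1' j hj1 (by omega) hjB
    · exact hz2 j k hj1 (by omega) hjB hk1 (by omega) hkB
    · exact hz2' j k hj1 (by omega) hjB hk1 (by omega) hkB
    · rw [hδ]
      have : 0 < 15 * R * (s + lam) := by positivity
      have h1 : 2 * (lam ^ 2 / (15 * R * (s + lam)) / 2) * (15 * R * (s + lam)) = lam ^ 2 := by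
        field_simp
      exact h1.le
  have h1 : L k - L' k = -(L4 k - L k) + (L4 k - L5 k) + (L5 k - L' k) := by ring
  rw [h1]
  have h2 := abs_add_le (-(L4 k - L k) + (L4 k - L5 k)) (L5 k - L' k)
  have h3 := abs_add_le (-(L4 k - L k)) (L4 k - L5 k)
  rw [abs_neg] at h3
  linarith

/-- **Small oscillation.** -/
theorem small_osc {e : ℕ → Q → ℝ} [Nonempty Q] (he1 : ∀ l b, |e l b| ≤ 1) (hosc : Osc e)
    {C : Set (ℕ → ℝ)} (hconv : Convex ℝ C) (hne : C.Nonempty) {R lam : ℝ} (hR : 0 < R)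
    (hlam : 0 < lam) (hC : Bd e R lam C) : ∃ U, Nb C U ∧ ∃ n, ∀ L ∈ U, ∀ L' ∈ U, ∀ l ≥ n,
      |L l - L' l| ≤ 16 * lam := by
  classical
  obtain ⟨r, U1, n1, hU1, -, hA, hB⟩ := exists_min (Nb.refl_of_convex hconv hne) (R := R)
    (lam := lam) (η := lam ^ 2 / 8) hlam.le hC (by positivity)
  -- the regions
  let Bs : (ℕ → ℝ) → Set Q := fun g => {b | ∀ j < n1, |e j b - g j| ≤ 1 / (4 * ((n1 : ℝ) + 1))}
  have hP : ∀ g, Pure e R (2 * lam) n1 U1 (Bs g) := by
    intro g L hL n2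
    obtain ⟨z, hz⟩ := local_pure he1 hU1 hR hlam.le hC hA hB (Bs := Bs g) (fun b hb b' hb' j hj => by
      have h1 := hb j hj
      have h2 := hb' j hj
      have h3 : |e j b - e j b'| ≤ |e j b - g j| + |g j - e j b'| := abs_sub_le _ _ _
      rw [abs_sub_comm (g j)] at h3
      have h4 : 1 / (4 * ((n1 : ℝ) + 1)) + 1 / (4 * ((n1 : ℝ) + 1)) = 1 / (2 * ((n1 : ℝ) + 1)) := by
        field_simp
        norm_num
      linarith) hL n2 (ε := lam) hlam (by ring_nf; nlinarith [sq_nonneg lam])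
    refine ⟨z, fun x hx => ?_⟩
    have := hz x hx
    have h2 : lam + lam = 2 * lam := by ring
    rwa [h2] at this
  have hM : ∀ L ∈ C, ∀ l, |L l| ≤ R + lam := fun L hL l => bd_abs_le he1 hC hL l
  -- finitely many regions
  have fin : ∀ G : Finset (ℕ → ℝ), ∃ U', Nb C U' ∧ U' ⊆ U1 ∧ ∃ n, ∀ g ∈ G, ∀ L ∈ U', ∀ L' ∈ U',
      ∀ l ≥ n, (∀ b, e l b ≠ 0 → b ∈ Bs g) → |L l - L' l| ≤ 16 * lam := by
    intro G
    induction G using Finset.induction_on with
    | empty => exact ⟨U1, hU1, subset_rfl, 0, fun g hg => absurd hg (Finset.notMem_empty g)⟩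
    | insert g G hg ih =>
      obtain ⟨U', hU', hU'1, n, h⟩ := ih
      obtain ⟨U'', hU'', hU''1, n', h'⟩ := region hosc hU' hR (lam := 2 * lam) (by positivity) hM
        (Bs := Bs g) (n1 := n1) (fun L hL => hP g L (hU'1 hL))
      refine ⟨U'', hU'', hU''1.trans hU'1, max n n', fun g' hg' L hL L' hL' l hl hb => ?_⟩
      rcases Finset.mem_insert.1 hg' with rfl | hg'
      · have := h' L hL L' hL' l ((le_max_right _ _).trans hl) hb
        linarith
      · exact h g' hg' L (hU''1 hL) L' (hU''1 hL') l ((le_max_left _ _).trans hl) hb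
  -- the net
  obtain ⟨t, htf, ht⟩ := Metric.totallyBounded_iff.1
    (isCompact_Icc : IsCompact (Set.Icc (-1 : Fin n1 → ℝ) 1)).totallyBounded
    (1 / (8 * ((n1 : ℝ) + 1))) (by positivity)
  let ext : (Fin n1 → ℝ) → ℕ → ℝ := fun y j => if h : j < n1 then y ⟨j, h⟩ else 0
  obtain ⟨U, hU, -, n, hn⟩ := fin (htf.toFinset.image ext)
  -- levels at which the supports are small
  have lev : ∃ l0, ∀ l ≥ l0, ∀ j < n1, ∀ b b', e l b ≠ 0 → e l b' ≠ 0 →
      |e j b - e j b'| ≤ 1 / (8 * ((n1 : ℝ) + 1)) := by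
    have : ∀ j, ∃ l0, ∀ l ≥ l0, ∀ b b', e l b ≠ 0 → e l b' ≠ 0 →
        |e j b - e j b'| ≤ 1 / (8 * ((n1 : ℝ) + 1)) := fun j => hosc j _ (by positivity)
    choose f hf using this
    refine ⟨(Finset.range n1).sup f, fun l hl j hj b b' hb hb' => hf j l ?_ b b' hb hb'⟩
    exact (Finset.le_sup (Finset.mem_range.2 hj)).trans hl
  obtain ⟨l0, hl0⟩ := lev
  refine ⟨U, hU, max n l0, fun L hL L' hL' l hl => ?_⟩
  by_cases hemp : ∃ b, e l b ≠ 0
  · obtain ⟨b, hb⟩ := hemp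
    have h1 : (fun i : Fin n1 => e i b) ∈ Set.Icc (-1 : Fin n1 → ℝ) 1 :=
      ⟨fun i => (abs_le.1 (he1 i b)).1, fun i => (abs_le.1 (he1 i b)).2⟩
    obtain ⟨y, hy⟩ := Set.mem_iUnion.1 (ht h1)
    obtain ⟨hyt, hy⟩ := Set.mem_iUnion.1 hy
    refine hn (ext y) (Finset.mem_image_of_mem _ (htf.mem_toFinset.2 hyt)) L hL L' hL' l
      ((le_max_left _ _).trans hl) fun b' hb' j hj => ?_
    have h2 : |e j b - y ⟨j, hj⟩| ≤ 1 / (8 * ((n1 : ℝ) + 1)) := by
      have h3 := (dist_pi_lt_iff (by positivity)).1 (Metric.mem_ball.1 hy) ⟨j, hj⟩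
      rw [Real.dist_eq] at h3
      exact h3.le
    have h3 := hl0 l ((le_max_right _ _).trans hl) j hj b' b hb' hb
    have h4 : ext y j = y ⟨j, hj⟩ := by simp only [ext]; rw [dif_pos hj]
    rw [h4]
    have h5 : |e j b' - y ⟨j, hj⟩| ≤ |e j b' - e j b| + |e j b - y ⟨j, hj⟩| := abs_sub_le _ _ _
    have h6 : 1 / (8 * ((n1 : ℝ) + 1)) + 1 / (8 * ((n1 : ℝ) + 1)) = 1 / (4 * ((n1 : ℝ) + 1)) := by
      field_simp
      norm_num
    linarith
  · push Not at hemp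
    have h1 : ∀ L ∈ C, |L l| ≤ lam := by
      intro L hL
      have h2 := hC L hL (Finsupp.single l 1) 0 (fun b => by rw [ev_single, hemp b]; simp)
      have h3 := hC L hL (Finsupp.single l (-1)) 0 (fun b => by rw [ev_single, hemp b]; simp)
      rw [pr_single, one_single] at h2 h3
      norm_num at h2 h3
      exact abs_le.2 ⟨by linarith, by linarith⟩
    have h2 := h1 L (hU.sub hL)
    have h3 := h1 L' (hU.sub hL')
    have h4 : |L l - L' l| ≤ |L l| + |L' l| := abs_sub _ _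
    linarith

end Pool.Agent.H791R2.Cp
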