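import Pool.Agent.H791R2.D

set_option autoImplicit false

/-!
# The norm
-/

namespace Pool.Agent.H791R2.Cp

variable {Q : Type*}

/-- the `ℓ₁` norm as a seminorm -/
noncomputable def oneS : Seminorm ℝ (ℕ →₀ ℝ) :=
  Seminorm.of one one_add (fun c x => by rw [one_smul', Real.norm_eq_abs])

@[simp] lemma oneS_apply (x : ℕ →₀ ℝ) : oneS x = one x := rfl

/-- evaluation seminorm -/
noncomputable def evS (e : ℕ → Q → ℝ) (b : Q) : Seminorm ℝ (ℕ →₀ ℝ) :=
  Seminorm.of (fun x => |ev e b x|) (fun x y => by rw [map_add]; exact abs_add_le _ _)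
    (fun c x => by rw [map_smul, smul_eq_mul, abs_mul, Real.norm_eq_abs])

lemma evS_apply (e : ℕ → Q → ℝ) (b : Q) (x : ℕ →₀ ℝ) : evS e b x = |ev e b x| := rfl

lemma abs_ev_le_one {e : ℕ → Q → ℝ} (he1 : ∀ l b, |e l b| ≤ 1) (b : Q) (x : ℕ →₀ ℝ) :
    |ev e b x| ≤ one x := by
  have := abs_pr_le (L := fun l => e l b) (x := x) (δ := 1) (fun l _ => he1 l b)
  simpa [ev] using this

/-- the sup norm over `Q` -/
noncomputable def nz (e : ℕ → Q → ℝ) : Seminorm ℝ (ℕ →₀ ℝ) := ⨆ b, evS e b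

lemma nz_bdd {e : ℕ → Q → ℝ} (he1 : ∀ l b, |e l b| ≤ 1) :
    BddAbove (Set.range fun b => evS e b) := by
  refine ⟨oneS, ?_⟩
  rintro _ ⟨b, rfl⟩ x
  exact abs_ev_le_one he1 b x

lemma nz_apply {e : ℕ → Q → ℝ} (he1 : ∀ l b, |e l b| ≤ 1) (x : ℕ →₀ ℝ) :
    nz e x = ⨆ b, |ev e b x| := by
  rw [nz, Seminorm.iSup_apply (nz_bdd he1)]
  rfl

lemma bdd_ev {e : ℕ → Q → ℝ} (he1 : ∀ l b, |e l b| ≤ 1) (x : ℕ →₀ ℝ) :
    BddAbove (Set.range fun b => |ev e b x|) :=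
  ⟨one x, by rintro _ ⟨b, rfl⟩; exact abs_ev_le_one he1 b x⟩

lemma abs_ev_le_nz {e : ℕ → Q → ℝ} (he1 : ∀ l b, |e l b| ≤ 1) (b : Q) (x : ℕ →₀ ℝ) :
    |ev e b x| ≤ nz e x := by
  rw [nz_apply he1]
  exact le_ciSup (bdd_ev he1 x) b

lemma nz_le {e : ℕ → Q → ℝ} [Nonempty Q] (he1 : ∀ l b, |e l b| ≤ 1) {x : ℕ →₀ ℝ} {c : ℝ}
    (h : ∀ b, |ev e b x| ≤ c) : nz e x ≤ c := by
  rw [nz_apply he1]
  exact ciSup_le h

lemma nz_le_one {e : ℕ → Q → ℝ} [Nonempty Q] (he1 : ∀ l b, |e l b| ≤ 1) (x : ℕ →₀ ℝ) :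
    nz e x ≤ one x := nz_le he1 fun b => abs_ev_le_one he1 b x

/-- the interpolating seminorms `inf (2^(-n) ‖u‖₁ + 2^n ‖x - u‖_∞)` -/
noncomputable def pn (e : ℕ → Q → ℝ) (n : ℕ) : Seminorm ℝ (ℕ →₀ ℝ) :=
  (((1 / 2 : NNReal) ^ n) • oneS) ⊓ (((2 : NNReal) ^ n) • nz e)

lemma pn_apply (e : ℕ → Q → ℝ) (n : ℕ) (x : ℕ →₀ ℝ) :
    pn e n x = ⨅ u, ((1 / 2 : ℝ) ^ n * one u + 2 ^ n * nz e (x - u)) := by
  rw [pn, Seminorm.inf_apply]
  refine iInf_congr fun u => ?_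
  rw [Seminorm.smul_apply, Seminorm.smul_apply, NNReal.smul_def, NNReal.smul_def]
  simp

lemma pn_bdd (e : ℕ → Q → ℝ) (n : ℕ) (x : ℕ →₀ ℝ) :
    BddBelow (Set.range fun u => ((1 / 2 : ℝ) ^ n * one u + 2 ^ n * nz e (x - u))) :=
  ⟨0, by
    rintro _ ⟨u, rfl⟩
    have h1 := one_nonneg u
    have h2 : 0 ≤ nz e (x - u) := apply_nonneg _ _
    positivity⟩

lemma pn_le_one (e : ℕ → Q → ℝ) (n : ℕ) (x : ℕ →₀ ℝ) : pn e n x ≤ (1 / 2 : ℝ) ^ n * one x := by
  rw [pn_apply]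
  refine (ciInf_le (pn_bdd e n x) x).trans ?_
  simp

lemma pn_le_nz (e : ℕ → Q → ℝ) (n : ℕ) (x : ℕ →₀ ℝ) : pn e n x ≤ 2 ^ n * nz e x := by
  rw [pn_apply]
  refine (ciInf_le (pn_bdd e n x) 0).trans ?_
  simp [one_zero]

lemma exists_decomp (e : ℕ → Q → ℝ) (n : ℕ) (x : ℕ →₀ ℝ) {c : ℝ} (h : pn e n x < c) :
    ∃ u, (1 / 2 : ℝ) ^ n * one u + 2 ^ n * nz e (x - u) < c := by
  rw [pn_apply] at h
  exact exists_lt_of_ciInf_lt h

lemma pn_sum_le {ι : Type*} (e : ℕ → Q → ℝ) (n : ℕ) (s : Finset ι) (y : ι → (ℕ →₀ ℝ)) :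
    pn e n (∑ i ∈ s, y i) ≤ ∑ i ∈ s, pn e n (y i) := by
  classical
  induction s using Finset.induction_on with
  | empty => simp
  | insert a s ha ih =>
    rw [Finset.sum_insert ha, Finset.sum_insert ha]
    exact (map_add_le_add _ _ _).trans (by linarith)

lemma pn_le_one' (e : ℕ → Q → ℝ) (n : ℕ) (x : ℕ →₀ ℝ) : pn e n x ≤ one x := by
  refine (pn_le_one e n x).trans ?_
  have h1 : (1 / 2 : ℝ) ^ n ≤ 1 := pow_le_one₀ (by norm_num) (by norm_num)
  have := mul_le_mul_of_nonneg_right h1 (one_nonneg x)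
  linarith

/-- the norm of the space -/
noncomputable def nX (e : ℕ → Q → ℝ) : Seminorm ℝ (ℕ →₀ ℝ) := ⨆ n, pn e n

lemma nX_bdd (e : ℕ → Q → ℝ) : BddAbove (Set.range fun n => pn e n) := by
  refine ⟨oneS, ?_⟩
  rintro _ ⟨n, rfl⟩ x
  exact pn_le_one' e n x

lemma nX_apply (e : ℕ → Q → ℝ) (x : ℕ →₀ ℝ) : nX e x = ⨆ n, pn e n x := by
  rw [nX, Seminorm.iSup_apply (nX_bdd e)]

lemma pn_le_nX (e : ℕ → Q → ℝ) (n : ℕ) (x : ℕ →₀ ℝ) : pn e n x ≤ nX e x := by
  rw [nX_apply]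
  exact le_ciSup (f := fun n => pn e n x) ⟨one x, by rintro _ ⟨n, rfl⟩; exact pn_le_one' e n x⟩ n

lemma nX_le (e : ℕ → Q → ℝ) {x : ℕ →₀ ℝ} {c : ℝ} (h : ∀ n, pn e n x ≤ c) : nX e x ≤ c := by
  rw [nX_apply]
  exact ciSup_le h

lemma nX_le_one (e : ℕ → Q → ℝ) (x : ℕ →₀ ℝ) : nX e x ≤ one x := nX_le e fun n => pn_le_one' e n x

lemma nz_le_nX {e : ℕ → Q → ℝ} [Nonempty Q] (he1 : ∀ l b, |e l b| ≤ 1) (x : ℕ →₀ ℝ) :
    nz e x ≤ nX e x := by
  refine le_trans ?_ (pn_le_nX e 0 x)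
  rw [pn_apply]
  refine le_ciInf fun u => ?_
  have h1 : nz e x ≤ nz e u + nz e (x - u) := by
    have := map_add_le_add (nz e) u (x - u)
    simpa using this
  have h2 := nz_le_one he1 u
  simp only [pow_zero, one_mul]
  linarith

/-- the sets `H_N` -/
def HN (e : ℕ → Q → ℝ) (τ : ℝ) (N : ℕ) : Set (ℕ → ℝ) :=
  {L | ∀ u v : ℕ →₀ ℝ, |pr L (u + v)| ≤ 2 ^ N * nz e (u + v) +
    τ * ((1 / 2 : ℝ) ^ N * one u + nX e v)}

/-- every functional bounded by a multiple of the norm lies in some `H_N` -/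
lemma exists_HN (e : ℕ → Q → ℝ) {L : ℕ → ℝ} {M : ℝ} (hL : ∀ x, |pr L x| ≤ M * nX e x) {τ : ℝ}
    (hτ : 0 < τ) : ∃ N, L ∈ HN e τ N := by
  by_contra hcon
  push Not at hcon
  -- normalised bad pairs
  have bad : ∀ N : ℕ, ∃ u v : ℕ →₀ ℝ, pr L (u + v) = 1 ∧ nz e (u + v) ≤ (1 / 2 : ℝ) ^ N ∧
      (1 / 2 : ℝ) ^ N * one u ≤ 1 / τ ∧ nX e v ≤ 1 / τ := by
    intro N
    have h1 := hcon N
    simp only [HN, Set.mem_ofPred_eq, not_forall, not_le] at h1
    obtain ⟨u, v, h⟩ := h1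
    have hn1 : 0 ≤ nz e (u + v) := apply_nonneg _ _
    have hn2 : 0 ≤ one u := one_nonneg u
    have hn3 : 0 ≤ nX e v := apply_nonneg _ _
    have hne : pr L (u + v) ≠ 0 := by
      intro h0
      rw [h0, abs_zero] at h
      have : 0 ≤ 2 ^ N * nz e (u + v) + τ * ((1 / 2 : ℝ) ^ N * one u + nX e v) := by positivity
      linarith
    set a := pr L (u + v) with ha
    have habs : 0 < |a| := abs_pos.2 hne
    refine ⟨a⁻¹ • u, a⁻¹ • v, ?_, ?_, ?_, ?_⟩
    · rw [← smul_add, map_smul, smul_eq_mul, ← ha, inv_mul_cancel₀ hne]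
    · rw [← smul_add, map_smul_eq_mul, Real.norm_eq_abs, abs_inv, inv_mul_le_iff₀ habs]
      have h2 : 2 ^ N * nz e (u + v) ≤ |a| := by
        have : 0 ≤ τ * ((1 / 2 : ℝ) ^ N * one u + nX e v) := by positivity
        linarith
      have h3 : (2 : ℝ) ^ N * ((1 / 2 : ℝ) ^ N) = 1 := by
        rw [← mul_pow]; norm_num
      have h4 : (0 : ℝ) < 2 ^ N := by positivity
      calc nz e (u + v) = (2 ^ N * (1 / 2 : ℝ) ^ N) * nz e (u + v) := by rw [h3, one_mul]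
        _ = (1 / 2 : ℝ) ^ N * (2 ^ N * nz e (u + v)) := by ring
        _ ≤ (1 / 2 : ℝ) ^ N * |a| := mul_le_mul_of_nonneg_left h2 (by positivity)
        _ = |a| * (1 / 2 : ℝ) ^ N := mul_comm _ _
    · rw [one_smul', abs_inv, ← mul_assoc, mul_comm ((1 / 2 : ℝ) ^ N), mul_assoc,
        inv_mul_le_iff₀ habs, mul_one_div, le_div_iff₀ hτ]
      have h5 : 0 ≤ 2 ^ N * nz e (u + v) := by positivity
      have h6 : 0 ≤ τ * nX e v := by positivity
      nlinarith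
    · rw [map_smul_eq_mul, Real.norm_eq_abs, abs_inv, inv_mul_le_iff₀ habs, mul_one_div,
        le_div_iff₀ hτ]
      have h5 : 0 ≤ 2 ^ N * nz e (u + v) := by positivity
      have h6 : 0 ≤ τ * ((1 / 2 : ℝ) ^ N * one u) := by positivity
      nlinarith
  choose u v huv1 huv2 huv3 huv4 using bad
  -- a fast sequence of levels
  have nxt : ∀ i N : ℕ, ∃ N', N < N' ∧ (1 / 2 : ℝ) ^ N' * (one (u N) + one (v N)) ≤ (1 / 2) ^ i := by
    intro i N
    have hlim : Filter.Tendsto (fun k : ℕ => (1 / 2 : ℝ) ^ k * (one (u N) + one (v N)))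
        Filter.atTop (nhds 0) := by
      have := (tendsto_pow_atTop_nhds_zero_of_lt_one (r := (1 / 2 : ℝ)) (by norm_num)
        (by norm_num)).mul_const (one (u N) + one (v N))
      simpa using this
    obtain ⟨k, hk⟩ := ((hlim.eventually (gt_mem_nhds (show (0 : ℝ) < (1 / 2) ^ i by positivity))).and
      (Filter.eventually_gt_atTop N)).exists
    exact ⟨k, hk.2, hk.1.le⟩
  choose g hg1 hg2 using nxt
  obtain ⟨Ns, hNs⟩ : ∃ Ns : ℕ → ℕ, ∀ i, Ns (i + 1) = g i (Ns i) :=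
    ⟨fun i => Nat.rec (motive := fun _ => ℕ) 0 (fun i N => g i N) i, fun i => rfl⟩
  have hmono : StrictMono Ns := strictMono_nat_of_lt_succ fun i => by rw [hNs]; exact hg1 _ _
  have hsmall : ∀ i, (1 / 2 : ℝ) ^ (Ns (i + 1)) * (one (u (Ns i)) + one (v (Ns i))) ≤ (1 / 2) ^ i :=
    fun i => by rw [hNs]; exact hg2 _ _
  set w : ℕ → (ℕ →₀ ℝ) := fun i => u (Ns i) + v (Ns i) with hw
  -- bounds of the pieces
  have hb1 : ∀ n i, n < Ns i → pn e n (w i) ≤ (1 / 2 : ℝ) ^ (Ns i - n) := by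
    intro n i h
    refine (pn_le_nz e n _).trans ?_
    have h1 := huv2 (Ns i)
    calc 2 ^ n * nz e (w i) ≤ 2 ^ n * (1 / 2 : ℝ) ^ (Ns i) :=
          mul_le_mul_of_nonneg_left h1 (by positivity)
      _ = (1 / 2 : ℝ) ^ (Ns i - n) := by
          have h2 : Ns i = (Ns i - n) + n := by omega
          rw [h2, pow_add, Nat.add_sub_cancel]
          have h3 : (2 : ℝ) ^ n * (1 / 2 : ℝ) ^ n = 1 := by rw [← mul_pow]; norm_num
          linear_combination (1 / 2 : ℝ) ^ (Ns i - n) * h3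
  have hb2 : ∀ n i, Ns (i + 1) ≤ n → pn e n (w i) ≤ (1 / 2 : ℝ) ^ i := by
    intro n i h
    refine (pn_le_one e n _).trans (le_trans ?_ (hsmall i))
    have h1 : (1 / 2 : ℝ) ^ n ≤ (1 / 2) ^ (Ns (i + 1)) :=
      pow_le_pow_of_le_one (by norm_num) (by norm_num) h
    exact mul_le_mul h1 (one_add _ _) (one_nonneg _) (by positivity)
  have hb3 : ∀ n i, Ns i ≤ n → pn e n (w i) ≤ 2 / τ := by
    intro n i h
    have h1 : pn e n (w i) ≤ pn e n (u (Ns i)) + pn e n (v (Ns i)) := map_add_le_add _ _ _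
    have h2 : pn e n (u (Ns i)) ≤ 1 / τ := by
      refine (pn_le_one e n _).trans (le_trans ?_ (huv3 (Ns i)))
      exact mul_le_mul_of_nonneg_right (pow_le_pow_of_le_one (by norm_num) (by norm_num) h)
        (one_nonneg _)
    have h3 : pn e n (v (Ns i)) ≤ 1 / τ := (pn_le_nX e n _).trans (huv4 _)
    have h4 : (2 : ℝ) / τ = 1 / τ + 1 / τ := by ring
    linarith
  -- the sums are bounded
  have hsum : ∀ m : ℕ, nX e (∑ i ∈ Finset.range m, w i) ≤ 4 + 2 / τ := by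
    intro m
    refine nX_le e fun n => ?_
    have h1 : pn e n (∑ i ∈ Finset.range m, w i) ≤ ∑ i ∈ Finset.range m, pn e n (w i) :=
      pn_sum_le e n _ _
    refine h1.trans ?_
    -- bound each term
    have h2 : ∀ i : ℕ, pn e n (w i) ≤ (1 / 2 : ℝ) ^ i +
        (if n < Ns i then (1 / 2 : ℝ) ^ (Ns i - n) else 0)
        + (if Ns i ≤ n ∧ n < Ns (i + 1) then 2 / τ else 0) := by
      intro i
      have h0 : (0 : ℝ) ≤ (1 / 2) ^ i := by positivity
      by_cases c1 : n < Ns i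
      · have c3 : ¬ (Ns i ≤ n ∧ n < Ns (i + 1)) := fun h => absurd h.1 (not_le.2 c1)
        rw [if_pos c1, if_neg c3]
        have := hb1 n i c1
        linarith
      · by_cases c2 : n < Ns (i + 1)
        · have c3 : Ns i ≤ n ∧ n < Ns (i + 1) := ⟨not_lt.1 c1, c2⟩
          rw [if_neg c1, if_pos c3]
          have := hb3 n i (not_lt.1 c1)
          linarith
        · have c3 : ¬ (Ns i ≤ n ∧ n < Ns (i + 1)) := fun h => c2 h.2
          rw [if_neg c1, if_neg c3]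
          have := hb2 n i (not_lt.1 c2)
          linarith
    refine (Finset.sum_le_sum fun i _ => h2 i).trans ?_
    rw [Finset.sum_add_distrib, Finset.sum_add_distrib]
    have h3 : ∑ i ∈ Finset.range m, (1 / 2 : ℝ) ^ i ≤ 2 := by
      have := sum_geometric_two_le m
      simpa using this
    have h4 : ∑ i ∈ Finset.range m, (if Ns i ≤ n ∧ n < Ns (i + 1) then 2 / τ else 0) ≤ 2 / τ := by
      rw [← Finset.sum_filter, Finset.sum_const, nsmul_eq_mul]
      have h5 : ((Finset.range m).filter fun i => Ns i ≤ n ∧ n < Ns (i + 1)).card ≤ 1 := by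
        rw [Finset.card_le_one]
        intro a ha b hb
        have ha' := (Finset.mem_filter.1 ha).2
        have hb' := (Finset.mem_filter.1 hb).2
        by_contra hab
        rcases lt_or_gt_of_ne hab with h | h
        · have := hmono.monotone (show a + 1 ≤ b by omega)
          omega
        · have := hmono.monotone (show b + 1 ≤ a by omega)
          omega
      have h6 : (((Finset.range m).filter fun i => Ns i ≤ n ∧ n < Ns (i + 1)).card : ℝ) ≤ 1 := by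
        exact_mod_cast h5
      have h7 : 0 ≤ 2 / τ := by positivity
      calc _ ≤ 1 * (2 / τ) := mul_le_mul_of_nonneg_right h6 h7
        _ = _ := one_mul _
    have h5 : ∑ i ∈ Finset.range m, (if n < Ns i then (1 / 2 : ℝ) ^ (Ns i - n) else 0) ≤ 2 := by
      rw [← Finset.sum_filter]
      set A := (Finset.range m).filter fun i => n < Ns i with hA
      have h6 : ∑ i ∈ A, (1 / 2 : ℝ) ^ (Ns i - n) = ∑ k ∈ A.image (fun i => Ns i - n),
          (1 / 2 : ℝ) ^ k := by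
        rw [Finset.sum_image]
        intro a ha b hb hab
        have ha' : n < Ns a := (Finset.mem_filter.1 ha).2
        have hb' : n < Ns b := (Finset.mem_filter.1 hb).2
        simp only at hab
        exact hmono.injective (by omega)
      rw [h6]
      obtain ⟨K, hK⟩ := (A.image (fun i => Ns i - n)).exists_nat_subset_range
      refine (Finset.sum_le_sum_of_subset_of_nonneg hK fun _ _ _ => by positivity).trans ?_
      have := sum_geometric_two_le K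
      simpa using this
    linarith
  -- contradiction
  have hM : 0 ≤ M ∨ M < 0 := le_or_gt 0 M
  obtain ⟨m, hm⟩ := exists_nat_gt (|M| * (4 + 2 / τ))
  have h1 : pr L (∑ i ∈ Finset.range m, w i) = m := by
    rw [map_sum, Finset.sum_congr rfl fun i _ => huv1 (Ns i)]
    simp
  have h2 := hL (∑ i ∈ Finset.range m, w i)
  rw [h1, abs_of_nonneg (Nat.cast_nonneg m)] at h2
  have h3 : M * nX e (∑ i ∈ Finset.range m, w i) ≤ |M| * (4 + 2 / τ) :=
    mul_le_mul (le_abs_self M) (hsum m) (apply_nonneg _ _) (abs_nonneg _)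
  linarith

end Pool.Agent.H791R2.Cp
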