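import Pool.Agent.H791R2.E

set_option autoImplicit false

/-!
# The point of continuity property
-/

namespace Pool.Agent.H791R2.Cp

variable {Q : Type*}

lemma continuous_pr (x : ℕ →₀ ℝ) : Continuous fun L : ℕ → ℝ => pr L x := by
  simp only [pr_eq_sum]
  exact continuous_finsetSum _ fun l _ => continuous_const.mul (continuous_apply l)

lemma isClosed_HN (e : ℕ → Q → ℝ) (τ : ℝ) (N : ℕ) : IsClosed (HN e τ N) := by
  have : HN e τ N = ⋂ u : ℕ →₀ ℝ, ⋂ v : ℕ →₀ ℝ, {L | |pr L (u + v)| ≤ 2 ^ N * nz e (u + v) +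
    τ * ((1 / 2 : ℝ) ^ N * one u + nX e v)} := by
    ext L
    simp only [HN, Set.mem_ofPred_eq, Set.mem_iInter]
  rw [this]
  exact isClosed_iInter fun u => isClosed_iInter fun v =>
    isClosed_le (continuous_pr _).abs continuous_const

/-- the norm estimate -/
lemma dist_le {e : ℕ → Q → ℝ} {τ : ℝ} {N : ℕ} (hτ : 0 < τ) {L L' : ℕ → ℝ}
    (hL : L ∈ HN e τ N) (hL' : L' ∈ HN e τ N)
    (h : ∀ l, |L l - L' l| ≤ 16 * (τ * (1 / 2 : ℝ) ^ N)) (j : ℕ) (x : ℕ →₀ ℝ) :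
    |pr L x - pr L' x| ≤ (2 * (1 / 2 : ℝ) ^ j + 20 * τ * 2 ^ j) * nX e x := by
  have key : ∀ c : ℝ, nX e x < c →
      |pr L x - pr L' x| ≤ (2 * (1 / 2 : ℝ) ^ j + 20 * τ * 2 ^ j) * c := by
    intro c hc
    have hn : 0 ≤ nX e x := apply_nonneg _ _
    obtain ⟨u, hu⟩ := exists_decomp e (N + j) x ((pn_le_nX e (N + j) x).trans_lt hc)
    have h1 : 0 ≤ one u := one_nonneg u
    have h2 : 0 ≤ nz e (x - u) := apply_nonneg _ _
    have e1 : (1 / 2 : ℝ) ^ (N + j) * 2 ^ (N + j) = 1 := by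
      rw [← mul_pow]; norm_num
    have e2 : (1 / 2 : ℝ) ^ j * 2 ^ j = 1 := by
      rw [← mul_pow]; norm_num
    have e3 : (1 / 2 : ℝ) ^ N * 2 ^ N = 1 := by
      rw [← mul_pow]; norm_num
    have p1 : (0 : ℝ) < (1 / 2 : ℝ) ^ j := by positivity
    have p2 : (0 : ℝ) < 2 ^ j := by positivity
    have p3 : (0 : ℝ) < (1 / 2 : ℝ) ^ N := by positivity
    have p4 : (0 : ℝ) < 2 ^ N := by positivity
    have p5 : (1 : ℝ) ≤ 2 ^ j := one_le_pow₀ (by norm_num)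
    rw [pow_add, pow_add] at hu
    -- the two pieces
    set A := (1 / 2 : ℝ) ^ N * one u with hA
    set B := 2 ^ N * nz e (x - u) with hB
    have hA0 : 0 ≤ A := by positivity
    have hB0 : 0 ≤ B := by positivity
    have hu' : (1 / 2 : ℝ) ^ j * A + 2 ^ j * B < c := by
      calc _ = (1 / 2 : ℝ) ^ N * (1 / 2) ^ j * one u + 2 ^ N * 2 ^ j * nz e (x - u) := by
            rw [hA, hB]; ring
        _ < c := hu
    have hA' : A ≤ 2 ^ j * c := by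
      have h3 : (1 / 2 : ℝ) ^ j * A ≤ c := by
        have : 0 ≤ 2 ^ j * B := by positivity
        linarith
      calc A = 2 ^ j * ((1 / 2 : ℝ) ^ j * A) := by
            linear_combination (-A) * e2
        _ ≤ 2 ^ j * c := mul_le_mul_of_nonneg_left h3 p2.le
    have hB' : B ≤ (1 / 2 : ℝ) ^ j * c := by
      have h3 : 2 ^ j * B ≤ c := by
        have : 0 ≤ (1 / 2 : ℝ) ^ j * A := by positivity
        linarith
      calc B = (1 / 2 : ℝ) ^ j * (2 ^ j * B) := by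
            linear_combination (-B) * e2
        _ ≤ (1 / 2 : ℝ) ^ j * c := mul_le_mul_of_nonneg_left h3 p1.le
    have b1 : |pr L u - pr L' u| ≤ 16 * (τ * (1 / 2 : ℝ) ^ N) * one u :=
      abs_pr_sub_le fun l _ => h l
    have b2 : ∀ L ∈ HN e τ N, |pr L (x - u)| ≤ B + τ * (A + nX e x) := by
      intro L hL
      have := hL (-u) x
      rw [one_neg, neg_add_eq_sub] at this
      exact this
    have b3 := b2 L hL
    have b4 := b2 L' hL'
    have b5 : |pr L x - pr L' x| ≤ |pr L u - pr L' u| + (|pr L (x - u)| + |pr L' (x - u)|) := by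
      have : pr L x - pr L' x = (pr L u - pr L' u) + (pr L (x - u) - pr L' (x - u)) := by
        rw [map_sub, map_sub]; ring
      rw [this]
      refine (abs_add_le _ _).trans (add_le_add le_rfl (abs_sub _ _))
    have b6 : 16 * (τ * (1 / 2 : ℝ) ^ N) * one u = 16 * τ * A := by rw [hA]; ring
    have b7 : τ * A ≤ τ * (2 ^ j * c) := mul_le_mul_of_nonneg_left hA' hτ.le
    have b8 : τ * nX e x ≤ τ * (2 ^ j * c) := by
      refine mul_le_mul_of_nonneg_left ?_ hτ.le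
      have hc0 : 0 ≤ c := hn.trans hc.le
      nlinarith
    have b9 : (2 * (1 / 2 : ℝ) ^ j + 20 * τ * 2 ^ j) * c =
        2 * ((1 / 2 : ℝ) ^ j * c) + 20 * (τ * (2 ^ j * c)) := by ring
    rw [b9]
    have b10 : τ * (A + nX e x) = τ * A + τ * nX e x := by ring
    rw [b10] at b3 b4
    rw [b6] at b1
    linarith
  refine le_of_forall_pos_le_add fun η hη => ?_
  set D := 2 * (1 / 2 : ℝ) ^ j + 20 * τ * 2 ^ j with hD
  have hD0 : 0 < D := by positivity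
  have := key (nX e x + η / D) (by have : 0 < η / D := by positivity
                                   linarith)
  rw [mul_add, mul_div_cancel₀ _ hD0.ne'] at this
  exact this

/-- the local statement -/
lemma local_osc {e : ℕ → Q → ℝ} [Nonempty Q] (he1 : ∀ l b, |e l b| ≤ 1) (hosc : Osc e)
    {K : Set (ℕ → ℝ)} (hKc : IsCompact K) (hKv : Convex ℝ K) {M : ℝ}
    (hM : ∀ L ∈ K, ∀ x, |pr L x| ≤ M * nX e x) {ε : ℝ} (hε : 0 < ε) {W : Set (ℕ → ℝ)}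
    (hW : IsOpen W) (hWK : (W ∩ K).Nonempty) :
    ∃ V : Set (ℕ → ℝ), IsOpen V ∧ (V ∩ K).Nonempty ∧ V ∩ K ⊆ W ∧
      ∀ L ∈ V ∩ K, ∀ L' ∈ V ∩ K, ∀ x, |pr L x - pr L' x| ≤ ε * nX e x := by
  classical
  -- parameters
  obtain ⟨j, hj⟩ : ∃ j : ℕ, (1 / 2 : ℝ) ^ j < ε / 4 :=
    exists_pow_lt_of_lt_one (by positivity) (by norm_num)
  set τ : ℝ := ε / (40 * 2 ^ j) with hτdef
  have hτ : 0 < τ := by positivity
  have hpar : 2 * (1 / 2 : ℝ) ^ j + 20 * τ * 2 ^ j ≤ ε := by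
    have : 20 * τ * 2 ^ j = ε / 2 := by
      rw [hτdef]; field_simp; ring
    rw [this]
    linarith
  -- Baire
  have : CompactSpace K := isCompact_iff_compactSpace.1 hKc
  have hcov : (⋃ N, {L : K | (L : ℕ → ℝ) ∈ HN e τ N}) = Set.univ := by
    ext L
    simp only [Set.mem_iUnion, Set.mem_ofPred_eq, Set.mem_univ, iff_true]
    exact exists_HN e (hM L L.2) hτ
  have hcl : ∀ N, IsClosed {L : K | (L : ℕ → ℝ) ∈ HN e τ N} := fun N =>
    (isClosed_HN e τ N).preimage continuous_subtype_val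
  have hdense := dense_iUnion_interior_of_closed hcl hcov
  have hWo : IsOpen (Subtype.val ⁻¹' W : Set K) := hW.preimage continuous_subtype_val
  obtain ⟨L00, hL00W, hL00K⟩ := hWK
  obtain ⟨L0, hL0⟩ := hdense.inter_open_nonempty _ hWo ⟨⟨L00, hL00K⟩, hL00W⟩
  obtain ⟨hL0W, hL0i⟩ := hL0
  obtain ⟨N, hN⟩ := Set.mem_iUnion.1 hL0i
  -- an open set of the ambient space
  obtain ⟨V0, hV0o, hV0⟩ := isOpen_induced_iff.1 (isOpen_interior (s := {L : K | (L : ℕ → ℝ) ∈ HN e τ N}))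
  have hL0V : (L0 : ℕ → ℝ) ∈ V0 ∩ W := ⟨by
    have : L0 ∈ Subtype.val ⁻¹' V0 := by rw [hV0]; exact hN
    exact this, hL0W⟩
  -- a box
  obtain ⟨m, δ, hδ, hbox⟩ : ∃ m : ℕ, ∃ δ : ℝ, 0 < δ ∧ bx (L0 : ℕ → ℝ) m δ ⊆ V0 ∩ W := by
    have h1 : V0 ∩ W ∈ nhds (L0 : ℕ → ℝ) := (hV0o.inter hW).mem_nhds hL0V
    rw [nhds_pi, Filter.mem_pi] at h1
    obtain ⟨I, hI, t, ht, hsub⟩ := h1
    have h2 : ∀ i, ∃ δ : ℝ, 0 < δ ∧ Metric.ball ((L0 : ℕ → ℝ) i) δ ⊆ t i := fun i =>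
      Metric.mem_nhds_iff.1 (ht i)
    choose d hd hdt using h2
    obtain ⟨m, hm⟩ := hI.toFinset.exists_nat_subset_range
    have h3 : ∃ δ : ℝ, 0 < δ ∧ ∀ i < m, δ ≤ d i := by
      clear hm
      induction m with
      | zero => exact ⟨1, one_pos, fun i hi => absurd hi (Nat.not_lt_zero _)⟩
      | succ m ih =>
        obtain ⟨δ, hδ, h⟩ := ih
        refine ⟨min δ (d m), lt_min hδ (hd m), fun i hi => ?_⟩
        rcases Nat.lt_succ_iff_lt_or_eq.1 hi with hi' | rfl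
        · exact (min_le_left _ _).trans (h i hi')
        · exact min_le_right _ _
    obtain ⟨δ, hδ, h4⟩ := h3
    refine ⟨m, δ, hδ, fun L hL => hsub fun i hi => hdt i ?_⟩
    have hi' : i < m := Finset.mem_range.1 (hm (by simpa using hi))
    rw [Metric.mem_ball, Real.dist_eq]
    exact (hL i hi').trans_le (h4 i hi')
  have bxo : ∀ (L : ℕ → ℝ) (m : ℕ) (δ : ℝ), IsOpen (bx L m δ) := by
    intro L m δ
    have : bx L m δ = ⋂ l ∈ Finset.range m, {L' | |L' l - L l| < δ} := by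
      ext L'
      simp [bx]
    rw [this]
    exact isOpen_biInter_finset fun l _ =>
      isOpen_lt ((continuous_apply l).sub continuous_const).abs continuous_const
  set C1 : Set (ℕ → ℝ) := K ∩ bx (L0 : ℕ → ℝ) m δ with hC1
  have hC1conv : Convex ℝ C1 := hKv.inter (convex_bx _ _ _)
  have hC1ne : C1.Nonempty := ⟨L0, L0.2, fun l _ => by simpa using hδ⟩
  have hC1H : ∀ L ∈ C1, L ∈ HN e τ N := by
    intro L hL
    have h1 : (⟨L, hL.1⟩ : K) ∈ Subtype.val ⁻¹' V0 := (hbox hL.2).1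
    rw [hV0] at h1
    have h2 : (⟨L, hL.1⟩ : K) ∈ {L : K | (L : ℕ → ℝ) ∈ HN e τ N} := interior_subset h1
    exact h2
  have hBd : Bd e (2 ^ N) (τ * (1 / 2 : ℝ) ^ N) C1 := by
    intro L hL x c hc
    have h1 := hC1H L hL x 0
    rw [add_zero, map_zero, add_zero] at h1
    have h2 := nz_le he1 hc
    have h3 : (2 : ℝ) ^ N * nz e x ≤ 2 ^ N * c := mul_le_mul_of_nonneg_left h2 (by positivity)
    have h4 := le_abs_self (pr L x)
    have h5 : τ * ((1 / 2 : ℝ) ^ N * one x) = τ * (1 / 2 : ℝ) ^ N * one x := by ring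
    linarith
  obtain ⟨U, hU, n, hUn⟩ := small_osc he1 hosc hC1conv hC1ne (by positivity)
    (show 0 < τ * (1 / 2 : ℝ) ^ N by positivity) hBd
  obtain ⟨L1, hL1⟩ := hU.ne
  have hU' := hU.inter_bx hL1 n (show 0 < 8 * (τ * (1 / 2 : ℝ) ^ N) by positivity)
  obtain ⟨m1, δ1, hδ1, h1⟩ := hU'.opn L1 ⟨hL1, fun l _ => by
    rw [sub_self, abs_zero]; positivity⟩
  have hL1C := hU.sub hL1
  refine ⟨bx (L0 : ℕ → ℝ) m δ ∩ bx L1 m1 δ1, (bxo _ _ _).inter (bxo _ _ _),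
    ⟨L1, ⟨hL1C.2, fun l _ => by rw [sub_self, abs_zero]; exact hδ1⟩, hL1C.1⟩,
    fun L hL => (hbox hL.1.1).2, ?_⟩
  have hsub : ∀ L ∈ (bx (L0 : ℕ → ℝ) m δ ∩ bx L1 m1 δ1) ∩ K,
      L ∈ U ∩ bx L1 n (8 * (τ * (1 / 2 : ℝ) ^ N)) := fun L hL =>
    h1 L ⟨hL.2, hL.1.1⟩ hL.1.2
  intro L hL L' hL' x
  have a1 := hsub L hL
  have a2 := hsub L' hL'
  have a3 : ∀ l, |L l - L' l| ≤ 16 * (τ * (1 / 2 : ℝ) ^ N) := by
    intro l
    by_cases hl : l < n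
    · have b1 := a1.2 l hl
      have b2 := a2.2 l hl
      have b3 : |L l - L' l| ≤ |L l - L1 l| + |L' l - L1 l| := by
        rw [abs_sub_comm (L' l)]
        exact abs_sub_le _ _ _
      linarith
    · exact hUn L a1.1 L' a2.1 l (not_lt.1 hl)
  have a4 := dist_le hτ (hC1H L ⟨hL.2, hL.1.1⟩) (hC1H L' ⟨hL'.2, hL'.1.1⟩) a3 j x
  exact a4.trans (mul_le_mul_of_nonneg_right hpar (apply_nonneg _ _))

/-- **C*PCP**. -/
theorem cstar_pcp {e : ℕ → Q → ℝ} [Nonempty Q] (he1 : ∀ l b, |e l b| ≤ 1) (hosc : Osc e)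
    (X : Type*) [NormedAddCommGroup X] [NormedSpace ℝ X] [CompleteSpace X]
    (ι : (ℕ →₀ ℝ) →ₗ[ℝ] X) (hι : ∀ x, ‖ι x‖ = nX e x) (hd : DenseRange ι)
    (C : Set (X →L[ℝ] ℝ)) (hCne : C.Nonempty) (hCv : Convex ℝ C)
    (hCc : @IsCompact (X →L[ℝ] ℝ)
      (TopologicalSpace.induced (fun (φ : X →L[ℝ] ℝ) (x : X) => φ x) inferInstance) C) :
    ∃ φ ∈ C, ∀ ε : ℝ, 0 < ε → ∃ U : Set (X →L[ℝ] ℝ),
      @IsOpen (X →L[ℝ] ℝ)
        (TopologicalSpace.induced (fun (φ : X →L[ℝ] ℝ) (x : X) => φ x) inferInstance) U ∧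
      φ ∈ U ∧ ∀ ψ ∈ U ∩ C, ‖ψ - φ‖ < ε := by
  classical
  let τp : TopologicalSpace (X →L[ℝ] ℝ) :=
    TopologicalSpace.induced (fun (φ : X →L[ℝ] ℝ) (x : X) => φ x) inferInstance
  -- evaluations are continuous
  have hev : ∀ x : X, @Continuous _ _ τp _ (fun φ : X →L[ℝ] ℝ => φ x) := by
    intro x
    have h1 : @Continuous _ _ τp _ (fun (φ : X →L[ℝ] ℝ) (x : X) => φ x) :=
      continuous_induced_dom
    exact (continuous_apply x).comp h1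
  let T : (X →L[ℝ] ℝ) → (ℕ → ℝ) := fun φ l => φ (ι (Finsupp.single l 1))
  have hT : @Continuous _ _ τp _ T := by
    refine @continuous_pi _ _ _ τp _ _ fun l => hev _
  have hTpr : ∀ φ x, pr (T φ) x = φ (ι x) := by
    intro φ x
    have h1 : pr (T φ) = (φ : X →ₗ[ℝ] ℝ).comp ι := by
      refine Finsupp.lhom_ext' fun l => LinearMap.ext_ring ?_
      simp [pr_single, T]
    rw [h1]
    rfl
  set K : Set (ℕ → ℝ) := T '' C with hK
  have hKc : IsCompact K := @IsCompact.image _ _ τp _ _ _ hCc hT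
  have hKv : Convex ℝ K := by
    rintro _ ⟨φ, hφ, rfl⟩ _ ⟨ψ, hψ, rfl⟩ a b ha hb hab
    refine ⟨a • φ + b • ψ, hCv hφ hψ ha hb hab, ?_⟩
    ext l
    simp [T]
  -- uniform boundedness
  obtain ⟨M, hM⟩ : ∃ M : ℝ, ∀ φ ∈ C, ‖φ‖ ≤ M := by
    have h1 : ∀ x : X, ∃ c, ∀ φ : C, ‖(φ : X →L[ℝ] ℝ) x‖ ≤ c := by
      intro x
      have h2 : IsCompact ((fun φ : X →L[ℝ] ℝ => φ x) '' C) :=
        @IsCompact.image _ _ τp _ _ _ hCc (hev x)
      obtain ⟨c, hc⟩ := h2.isBounded.exists_norm_le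
      exact ⟨c, fun φ => hc _ ⟨φ, φ.2, rfl⟩⟩
    obtain ⟨M, hM⟩ := banach_steinhaus (g := fun φ : C => (φ : X →L[ℝ] ℝ)) h1
    exact ⟨M, fun φ hφ => hM ⟨φ, hφ⟩⟩
  have hMK : ∀ L ∈ K, ∀ x, |pr L x| ≤ M * nX e x := by
    rintro _ ⟨φ, hφ, rfl⟩ x
    rw [hTpr, ← Real.norm_eq_abs, ← hι x]
    exact (φ.le_opNorm _).trans (mul_le_mul_of_nonneg_right (hM φ hφ) (norm_nonneg _))
  have hKne : K.Nonempty := hCne.image T
  -- Baire in K
  have : CompactSpace K := isCompact_iff_compactSpace.1 hKc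
  have : Nonempty K := hKne.to_subtype
  let O : ℕ → Set K := fun m => {L | ∃ V : Set (ℕ → ℝ), IsOpen V ∧ (L : ℕ → ℝ) ∈ V ∧
    ∀ A ∈ V ∩ K, ∀ B ∈ V ∩ K, ∀ x, |pr A x - pr B x| ≤ (1 / ((m : ℝ) + 1)) * nX e x}
  have hOo : ∀ m, IsOpen (O m) := by
    intro m
    rw [isOpen_iff_forall_mem_open]
    rintro L ⟨V, hV, hLV, h⟩
    exact ⟨Subtype.val ⁻¹' V, fun L' hL' => ⟨V, hV, hL', h⟩, hV.preimage continuous_subtype_val,
      hLV⟩
  have hOd : ∀ m, Dense (O m) := by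
    intro m
    rw [dense_iff_inter_open]
    intro W hW hWne
    obtain ⟨W', hW', rfl⟩ := isOpen_induced_iff.1 hW
    obtain ⟨L, hL⟩ := hWne
    obtain ⟨V, hV, ⟨L1, hL1V, hL1K⟩, hVW, h⟩ := local_osc he1 hosc hKc hKv hMK
      (show (0 : ℝ) < 1 / ((m : ℝ) + 1) by positivity) hW' ⟨L, hL, L.2⟩
    exact ⟨⟨L1, hL1K⟩, hVW ⟨hL1V, hL1K⟩, V, hV, hL1V, h⟩
  obtain ⟨L, hL⟩ := (dense_iInter_of_isOpen hOo hOd).nonempty
  rw [Set.mem_iInter] at hL
  obtain ⟨φ, hφ, hφL⟩ := L.2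
  refine ⟨φ, hφ, fun ε hε => ?_⟩
  obtain ⟨m, hm⟩ := exists_nat_one_div_lt hε
  obtain ⟨V, hV, hLV, h⟩ := hL m
  refine ⟨T ⁻¹' V, @IsOpen.preimage _ _ τp _ _ hT _ hV, ?_, ?_⟩
  · show T φ ∈ V
    rw [hφL]; exact hLV
  · rintro ψ ⟨hψV, hψC⟩
    have h1 := h (T ψ) ⟨hψV, ⟨ψ, hψC, rfl⟩⟩ (T φ) ⟨by rw [hφL]; exact hLV, ⟨φ, hφ, rfl⟩⟩
    refine lt_of_le_of_lt ?_ hm
    refine ContinuousLinearMap.opNorm_le_bound _ (by positivity) ?_
    intro y
    refine hd.induction_on (p := fun y => ‖(ψ - φ) y‖ ≤ 1 / ((m : ℝ) + 1) * ‖y‖) y ?_ ?_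
    · exact isClosed_le (ψ - φ).continuous.norm (continuous_const.mul continuous_norm)
    · intro x
      have h2 := h1 x
      rw [hTpr, hTpr] at h2
      rw [hι x, Real.norm_eq_abs]
      exact h2

end Pool.Agent.H791R2.Cp
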