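import Pool.Agent.H791R2.G0

set_option autoImplicit false

/-!
# The functions `e l`
-/

namespace Pool.Agent.H791R2.Cp

open Filter Topology

/-- the cube -/
structure Cube : Type where
  /-- coordinates -/
  val : ℕ → ℝ
  /-- bounds -/
  prop : ∀ i, |val i| ≤ 1

instance : Nonempty Cube := ⟨⟨fun _ => 0, fun i => by simp⟩⟩

/-- the cylinder functions -/
noncomputable def Th (d : Dat) (l : ℕ) (b : ℕ → ℝ) : ℝ :=
  ∏ i ∈ Finset.range (d.r l), d.φ (d.q l * (b i - d.p l i))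

/-- the functions -/
noncomputable def ee (d : Dat) (l : ℕ) (b : Cube) : ℝ := b.1 l * Th d l b.1

variable (d : Dat)

lemma Th_nonneg (l : ℕ) (b : ℕ → ℝ) : 0 ≤ Th d l b := Finset.prod_nonneg fun _ _ => d.h0 _

lemma Th_le_one (l : ℕ) (b : ℕ → ℝ) : Th d l b ≤ 1 :=
  Finset.prod_le_one (fun _ _ => d.h0 _) fun _ _ => d.h1 _

lemma Th_congr {l : ℕ} {b b' : ℕ → ℝ} (h : ∀ i < l, b i = b' i) : Th d l b = Th d l b' :=
  Finset.prod_congr rfl fun i hi => by
    rw [h i ((Finset.mem_range.1 hi).trans_le (d.hr l))]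

lemma Th_eq_one {l : ℕ} {b : ℕ → ℝ} (h : ∀ i < d.r l, |b i - d.p l i| * d.q l ≤ 1 / 2) :
    Th d l b = 1 := by
  refine Finset.prod_eq_one fun i hi => d.hone _ ?_
  have h1 := h i (Finset.mem_range.1 hi)
  have h2 : 0 ≤ d.q l := zero_le_one.trans (d.hq l)
  rwa [abs_mul, abs_of_nonneg h2, mul_comm]

lemma Th_ne_zero {l : ℕ} {b : ℕ → ℝ} (h : Th d l b ≠ 0) {i : ℕ} (hi : i < d.r l) :
    |b i - d.p l i| * d.q l ≤ 1 := by
  have h1 := Finset.prod_ne_zero_iff.1 h i (Finset.mem_range.2 hi)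
  by_contra hcon
  push Not at hcon
  refine h1 (d.hzero _ ?_)
  have h2 : 0 ≤ d.q l := zero_le_one.trans (d.hq l)
  rw [abs_mul, abs_of_nonneg h2, mul_comm]
  exact hcon.le

lemma ee_le_one (l : ℕ) (b : Cube) : |ee d l b| ≤ 1 := by
  unfold ee
  rw [abs_mul, abs_of_nonneg (Th_nonneg d l _)]
  calc |b.1 l| * Th d l b.1 ≤ 1 * 1 :=
        mul_le_mul (b.2 l) (Th_le_one d l _) (Th_nonneg d l _) zero_le_one
    _ = 1 := one_mul 1

lemma phi_lip (s t : ℝ) : |d.φ s - d.φ t| ≤ d.A * |s - t| := by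
  have := Convex.norm_image_sub_le_of_norm_hasDerivWithin_le (f := d.φ) (f' := d.φ') (s := Set.univ)
    (x := t) (y := s) (C := d.A) (fun x _ => (d.hd x).hasDerivWithinAt) (fun x _ => d.hA' x)
    convex_univ (Set.mem_univ _) (Set.mem_univ _)
  exact this

lemma prod_lip {a c : ℕ → ℝ} (ha : ∀ i, |a i| ≤ 1) (hc : ∀ i, |c i| ≤ 1) (n : ℕ) :
    |∏ i ∈ Finset.range n, a i - ∏ i ∈ Finset.range n, c i| ≤
      ∑ i ∈ Finset.range n, |a i - c i| := by
  induction n with
  | zero => simp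
  | succ n ih =>
    rw [Finset.prod_range_succ, Finset.prod_range_succ, Finset.sum_range_succ]
    have h1 : (∏ i ∈ Finset.range n, a i) * a n - (∏ i ∈ Finset.range n, c i) * c n =
        (∏ i ∈ Finset.range n, a i - ∏ i ∈ Finset.range n, c i) * a n +
        (∏ i ∈ Finset.range n, c i) * (a n - c n) := by ring
    rw [h1]
    refine (abs_add_le _ _).trans (add_le_add ?_ ?_)
    · rw [abs_mul]
      calc _ ≤ |∏ i ∈ Finset.range n, a i - ∏ i ∈ Finset.range n, c i| * 1 :=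
            mul_le_mul_of_nonneg_left (ha n) (abs_nonneg _)
        _ ≤ _ := by rw [mul_one]; exact ih
    · rw [abs_mul, Finset.abs_prod]
      have h2 : ∏ i ∈ Finset.range n, |c i| ≤ 1 :=
        Finset.prod_le_one (fun _ _ => abs_nonneg _) fun i _ => hc i
      calc _ ≤ 1 * |a n - c n| := mul_le_mul_of_nonneg_right h2 (abs_nonneg _)
        _ = _ := one_mul _

lemma Th_lip (l : ℕ) (b b' : ℕ → ℝ) {η : ℝ} (h : ∀ i < l, |b i - b' i| ≤ η) :
    |Th d l b - Th d l b'| ≤ l * (d.A * (d.q l * η)) := by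
  have hphi : ∀ x, |d.φ x| ≤ 1 := fun x => by rw [abs_of_nonneg (d.h0 x)]; exact d.h1 x
  have h2 : 0 ≤ d.q l := zero_le_one.trans (d.hq l)
  rcases Nat.eq_zero_or_pos l with rfl | hl
  · have : d.r 0 = 0 := Nat.le_zero.1 (d.hr 0)
    simp [Th, this]
  have hη : 0 ≤ η := (abs_nonneg _).trans (h 0 hl)
  refine (prod_lip (a := fun i => d.φ (d.q l * (b i - d.p l i)))
    (c := fun i => d.φ (d.q l * (b' i - d.p l i))) (fun i => hphi _) (fun i => hphi _) _).trans ?_
  have h3 : ∀ i ∈ Finset.range (d.r l), |d.φ (d.q l * (b i - d.p l i)) -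
      d.φ (d.q l * (b' i - d.p l i))| ≤ d.A * (d.q l * η) := by
    intro i hi
    refine (phi_lip d _ _).trans (mul_le_mul_of_nonneg_left ?_ d.hA)
    have h4 : d.q l * (b i - d.p l i) - d.q l * (b' i - d.p l i) = d.q l * (b i - b' i) := by ring
    rw [h4, abs_mul, abs_of_nonneg h2]
    exact mul_le_mul_of_nonneg_left (h i ((Finset.mem_range.1 hi).trans_le (d.hr l))) h2
  refine (Finset.sum_le_sum h3).trans ?_
  rw [Finset.sum_const, Finset.card_range, nsmul_eq_mul]
  refine mul_le_mul_of_nonneg_right (by exact_mod_cast d.hr l) ?_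
  have := d.hA
  positivity

lemma ee_osc : Osc (ee d) := by
  intro j δ hδ
  -- constant
  set c : ℝ := 2 * (1 + j * (d.A * d.q j)) with hc
  have hqj : 0 ≤ d.q j := zero_le_one.trans (d.hq j)
  have hA := d.hA
  have hc0 : 0 < c := by positivity
  have h1 : ∀ᶠ l in atTop, c / δ ≤ d.q l ∧ j < d.r l :=
    (d.hqt.eventually_ge_atTop _).and (d.hrt.eventually_gt_atTop _)
  obtain ⟨l0, hl0⟩ := eventually_atTop.1 h1
  refine ⟨l0, fun l hl b b' hb hb' => ?_⟩
  obtain ⟨h2, h3⟩ := hl0 l hl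
  have hT : Th d l b.1 ≠ 0 := fun h => hb (by rw [ee, h, mul_zero])
  have hT' : Th d l b'.1 ≠ 0 := fun h => hb' (by rw [ee, h, mul_zero])
  have hql : 0 < d.q l := zero_lt_one.trans_le (d.hq l)
  have h4 : ∀ i < j + 1, |b.1 i - b'.1 i| ≤ 2 / d.q l := by
    intro i hi
    have hi' : i < d.r l := by omega
    have h5 := Th_ne_zero d hT hi'
    have h6 := Th_ne_zero d hT' hi'
    rw [le_div_iff₀ hql]
    have h7 : |b.1 i - b'.1 i| ≤ |b.1 i - d.p l i| + |b'.1 i - d.p l i| := by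
      rw [abs_sub_comm (b'.1 i)]
      exact abs_sub_le _ _ _
    calc _ ≤ (|b.1 i - d.p l i| + |b'.1 i - d.p l i|) * d.q l :=
          mul_le_mul_of_nonneg_right h7 hql.le
      _ ≤ 2 := by rw [add_mul]; linarith
  have h5 := Th_lip d j b.1 b'.1 (η := 2 / d.q l) fun i hi => h4 i (by omega)
  have h6 : ee d j b - ee d j b' = (b.1 j - b'.1 j) * Th d j b.1 +
      b'.1 j * (Th d j b.1 - Th d j b'.1) := by
    unfold ee; ring
  rw [h6]
  have h7 : |(b.1 j - b'.1 j) * Th d j b.1| ≤ 2 / d.q l := by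
    rw [abs_mul, abs_of_nonneg (Th_nonneg d j _)]
    calc _ ≤ |b.1 j - b'.1 j| * 1 :=
          mul_le_mul_of_nonneg_left (Th_le_one d j _) (abs_nonneg _)
      _ ≤ _ := by rw [mul_one]; exact h4 j (by omega)
  have h8 : |b'.1 j * (Th d j b.1 - Th d j b'.1)| ≤ j * (d.A * (d.q j * (2 / d.q l))) := by
    rw [abs_mul]
    calc _ ≤ 1 * |Th d j b.1 - Th d j b'.1| :=
          mul_le_mul_of_nonneg_right (b'.2 j) (abs_nonneg _)
      _ ≤ _ := by rw [one_mul]; exact h5
  refine (abs_add_le _ _).trans ((add_le_add h7 h8).trans ?_)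
  have h9 : 2 / d.q l + j * (d.A * (d.q j * (2 / d.q l))) = c / d.q l := by
    rw [hc]; field_simp
  rw [h9, div_le_iff₀ hql]
  rw [div_le_iff₀ hδ] at h2
  linarith

/-- truncation -/
lemma trunc (n : ℕ) (b : Cube) (x : ℕ →₀ ℝ) : ∃ b' : Cube,
    ev (ee d) b' x = ∑ l ∈ Finset.range n, x l * ee d l b := by
  classical
  have hb : ∀ i, |if i < n then b.1 i else 0| ≤ 1 := by
    intro i
    split_ifs
    · exact b.2 i
    · simp
  refine ⟨⟨fun i => if i < n then b.1 i else 0, hb⟩, ?_⟩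
  rw [ev_eq_sum]
  have h1 : ∀ l, x l * ee d l ⟨fun i => if i < n then b.1 i else 0, hb⟩ =
      if l < n then x l * ee d l b else 0 := by
    intro l
    by_cases hl : l < n
    · rw [if_pos hl]
      unfold ee
      simp only [if_pos hl]
      rw [Th_congr d (b' := b.1) fun i hi => if_pos (hi.trans hl)]
    · rw [if_neg hl]
      unfold ee
      simp only [if_neg hl, zero_mul, mul_zero]
  rw [Finset.sum_congr rfl fun l _ => h1 l, ← Finset.sum_filter]
  have h2 : (x.support.filter fun l => l < n) ⊆ Finset.range n := fun l hl =>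
    Finset.mem_range.2 (Finset.mem_filter.1 hl).2
  refine Finset.sum_subset h2 fun l hl hl' => ?_
  have h3 : l ∉ x.support := fun h => hl' (Finset.mem_filter.2 ⟨h, Finset.mem_range.1 hl⟩)
  rw [Finsupp.notMem_support_iff.1 h3, zero_mul]

lemma trunc_le (n : ℕ) (b : Cube) (x : ℕ →₀ ℝ) :
    |∑ l ∈ Finset.range n, x l * ee d l b| ≤ nX (ee d) x := by
  obtain ⟨b', hb'⟩ := trunc d n b x
  rw [← hb']
  exact (abs_ev_le_nz (ee_le_one d) b' x).trans (nz_le_nX (ee_le_one d) x)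

lemma coord_le (l : ℕ) (x : ℕ →₀ ℝ) : |x l| ≤ 2 * nX (ee d) x := by
  classical
  have hb : ∀ i, |if i < l then d.p l i else if i = l then (1 : ℝ) else 0| ≤ 1 := by
    intro i
    split_ifs
    · exact d.hp l i
    · simp
    · simp
  set b : Cube := ⟨fun i => if i < l then d.p l i else if i = l then (1 : ℝ) else 0, hb⟩ with hbdef
  have h1 := trunc_le d (l + 1) b x
  have h2 := trunc_le d l b x
  rw [Finset.sum_range_succ] at h1
  have h3 : ee d l b = 1 := by
    unfold ee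
    have h4 : b.1 l = 1 := by
      rw [hbdef]
      simp
    have h5 : Th d l b.1 = 1 := by
      refine Th_eq_one d fun i hi => ?_
      have hi' : i < l := hi.trans_le (d.hr l)
      have h6 : b.1 i = d.p l i := by
        rw [hbdef]
        simp [hi']
      rw [h6]
      simp
    rw [h4, h5, one_mul]
  rw [h3, mul_one] at h1
  have h4 := abs_le.1 h1
  have h5 := abs_le.1 h2
  rw [abs_le]
  constructor <;> linarith [h4.1, h4.2, h5.1, h5.2]

end Pool.Agent.H791R2.Cp
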