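import Pool.Agent.H791R2.F

set_option autoImplicit false

/-!
# The data
-/

namespace Pool.Agent.H791R2.Cp

open Filter Topology

/-- a bump function -/
lemma exists_bump : ∃ (φ φ' : ℝ → ℝ) (A : ℝ), 0 ≤ A ∧ (∀ t, HasDerivAt φ (φ' t) t) ∧
    (∀ t, |φ' t| ≤ A) ∧ (∀ t, 0 ≤ φ t) ∧ (∀ t, φ t ≤ 1) ∧ (∀ t, |t| ≤ 1 / 2 → φ t = 1) ∧
    (∀ t, 1 ≤ |t| → φ t = 0) := by
  let f : ContDiffBump (0 : ℝ) := ⟨1 / 2, 1, by norm_num, by norm_num⟩
  have hf : ContDiff ℝ 1 f := f.contDiff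
  have h1 : Continuous (deriv f) := hf.continuous_deriv le_rfl
  obtain ⟨A, hA⟩ := f.hasCompactSupport.deriv.exists_bound_of_continuous h1
  refine ⟨f, deriv f, A, (norm_nonneg _).trans (hA 0), fun t => ?_, fun t => hA t,
    fun t => f.nonneg, fun t => f.le_one, fun t ht => ?_, fun t ht => ?_⟩
  · exact ((hf.differentiable (by norm_num)) t).hasDerivAt
  · apply f.one_of_mem_closedBall
    rw [Metric.mem_closedBall, Real.dist_eq, sub_zero]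
    exact ht
  · apply f.zero_of_le_dist
    rw [Real.dist_eq, sub_zero]
    exact ht

/-- all the data of the construction -/
structure Dat where
  φ : ℝ → ℝ
  φ' : ℝ → ℝ
  A : ℝ
  hA : 0 ≤ A
  hd : ∀ t, HasDerivAt φ (φ' t) t
  hA' : ∀ t, |φ' t| ≤ A
  h0 : ∀ t, 0 ≤ φ t
  h1 : ∀ t, φ t ≤ 1
  hone : ∀ t, |t| ≤ 1 / 2 → φ t = 1
  hzero : ∀ t, 1 ≤ |t| → φ t = 0
  q : ℕ → ℝ
  r : ℕ → ℕ
  p : ℕ → ℕ → ℝ
  hp : ∀ l i, |p l i| ≤ 1
  hq : ∀ l, 1 ≤ q l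
  hr : ∀ l, r l ≤ l
  hqt : Tendsto q atTop atTop
  hrt : Tendsto r atTop atTop
  hb : ∀ b : ℕ → ℝ, (∀ i, |b i| ≤ 1) → ∀ K, ∃ k ≥ K, ∀ i < r k, |b i - p k i| * q k ≤ 1 / 2

/-- rounding -/
lemma exists_round (q : ℕ) (hq : 0 < q) {a : ℝ} (ha : |a| ≤ 1) :
    ∃ m : Fin (2 * q + 1), |a - (((m : ℕ) : ℝ) - q) / q| * q ≤ 1 / 2 := by
  have hq' : (0 : ℝ) < q := by exact_mod_cast hq
  obtain ⟨h1, h2⟩ := abs_le.1 ha
  have h3 : 0 ≤ (a + 1) * q := mul_nonneg (by linarith) hq'.le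
  have h4 : ((⌊(a + 1) * q + 1 / 2⌋₊ : ℕ) : ℝ) ≤ (a + 1) * q + 1 / 2 :=
    Nat.floor_le (by linarith)
  have h5 : (a + 1) * q + 1 / 2 < (⌊(a + 1) * q + 1 / 2⌋₊ : ℕ) + 1 := Nat.lt_floor_add_one _
  have h6 : (a + 1) * q ≤ 2 * q := mul_le_mul_of_nonneg_right (by linarith) hq'.le
  have h7 : ⌊(a + 1) * q + 1 / 2⌋₊ < 2 * q + 1 := by
    have : ((⌊(a + 1) * q + 1 / 2⌋₊ : ℕ) : ℝ) < ((2 * q + 1 : ℕ) : ℝ) := by
      push_cast
      linarith
    exact_mod_cast this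
  refine ⟨⟨_, h7⟩, ?_⟩
  have h8 : |a - (((⌊(a + 1) * q + 1 / 2⌋₊ : ℕ) : ℝ) - q) / q| * q =
      |(a + 1) * q - (⌊(a + 1) * q + 1 / 2⌋₊ : ℕ)| := by
    rw [← abs_of_pos hq', ← abs_mul, abs_of_pos hq']
    congr 1
    field_simp
    ring
  rw [h8, abs_le]
  constructor <;> linarith

/-- the index set -/
abbrev Ix : Type := Σ n : ℕ, (Fin (n + 1) → Fin (2 * (n + 1) + 1))

/-- the grid point -/
noncomputable def gp (s : Ix) (i : ℕ) : ℝ :=
  if h : i < s.1 + 1 then (((s.2 ⟨i, h⟩ : ℕ) : ℝ) - (s.1 + 1 : ℕ)) / (s.1 + 1 : ℕ) else 0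

lemma abs_gp (s : Ix) (i : ℕ) : |gp s i| ≤ 1 := by
  unfold gp
  split_ifs with h
  · have h1 : (0 : ℝ) < ((s.1 + 1 : ℕ) : ℝ) := by positivity
    rw [abs_div, abs_of_pos h1, div_le_one h1, abs_le]
    have h2 : ((s.2 ⟨i, h⟩ : ℕ) : ℝ) ≤ ((2 * (s.1 + 1) : ℕ) : ℝ) := by
      exact_mod_cast Nat.lt_succ_iff.1 (s.2 ⟨i, h⟩).2
    have h3 : (0 : ℝ) ≤ ((s.2 ⟨i, h⟩ : ℕ) : ℝ) := Nat.cast_nonneg _
    push_cast at h2 ⊢
    constructor <;> linarith
  · simp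

lemma exists_dat : Nonempty Dat := by
  obtain ⟨φ, φ', A, hA, hd, hA', h0, h1, hone, hzero⟩ := exists_bump
  have : Infinite Ix := Infinite.of_injective (fun n : ℕ => (⟨n, fun _ => 0⟩ : Ix))
    (fun a b h => by
      have := congrArg Sigma.fst h
      simpa using this)
  obtain ⟨hden⟩ := nonempty_denumerable Ix
  let E : Ix ≃ ℕ := Denumerable.eqv Ix
  have hfin : ∀ M : ℕ, ∃ l0 : ℕ, ∀ l ≥ l0, M ≤ (E.symm l).1 := by
    intro M
    have h1 : (⋃ n ∈ Finset.range M, Set.range fun a : Fin (n + 1) → Fin (2 * (n + 1) + 1) =>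
        E ⟨n, a⟩).Finite :=
      Set.Finite.biUnion (Finset.finite_toSet _) fun n _ => Set.finite_range _
    obtain ⟨l0, hl0⟩ := h1.bddAbove
    refine ⟨l0 + 1, fun l hl => ?_⟩
    by_contra hcon
    push Not at hcon
    have h2 : l ≤ l0 := hl0 (by
      simp only [Set.mem_iUnion, Set.mem_range]
      refine ⟨(E.symm l).1, Finset.mem_range.2 hcon, (E.symm l).2, ?_⟩
      exact E.apply_symm_apply l)
    omega
  refine ⟨⟨φ, φ', A, hA, hd, hA', h0, h1, hone, hzero,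
    fun l => ((E.symm l).1 + 1 : ℕ), fun l => min ((E.symm l).1 + 1) l,
    fun l => gp (E.symm l), fun l i => abs_gp _ _, fun l => ?_, fun l => min_le_right _ _,
    ?_, ?_, ?_⟩⟩
  · push_cast
    have : (0 : ℝ) ≤ (E.symm l).1 := Nat.cast_nonneg _
    linarith
  · refine tendsto_natCast_atTop_atTop.comp ?_
    refine tendsto_atTop.2 fun M => ?_
    obtain ⟨l0, hl0⟩ := hfin M
    filter_upwards [eventually_ge_atTop l0] with l hl
    exact (hl0 l hl).trans (Nat.le_succ _)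
  · refine tendsto_atTop.2 fun M => ?_
    obtain ⟨l0, hl0⟩ := hfin M
    filter_upwards [eventually_ge_atTop l0, eventually_ge_atTop M] with l hl hl'
    exact le_min ((hl0 l hl).trans (Nat.le_succ _)) hl'
  · intro b hb K
    have h2 : ∀ n : ℕ, ∃ a : Fin (n + 1) → Fin (2 * (n + 1) + 1), ∀ i : Fin (n + 1),
        |b i - (((a i : ℕ) : ℝ) - (n + 1 : ℕ)) / (n + 1 : ℕ)| * (n + 1 : ℕ) ≤ 1 / 2 := by
      intro n
      have h3 := fun i : Fin (n + 1) => exists_round (n + 1) (Nat.succ_pos n) (hb i)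
      choose a ha using h3
      exact ⟨a, ha⟩
    choose a ha using h2
    have hinj : Function.Injective fun n : ℕ => E ⟨n, a n⟩ := by
      intro m n hmn
      have := congrArg Sigma.fst (E.injective hmn)
      simpa using this
    obtain ⟨n, hn⟩ : ∃ n : ℕ, K ≤ E ⟨n, a n⟩ := by
      by_contra hcon
      push Not at hcon
      have h4 : Set.range (fun n : ℕ => E ⟨n, a n⟩) ⊆ Set.Iio K := by
        rintro _ ⟨n, rfl⟩
        exact hcon n
      exact Set.infinite_range_of_injective hinj ((Set.finite_Iio K).subset h4)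
    refine ⟨E ⟨n, a n⟩, hn, ?_⟩
    simp only [Equiv.symm_apply_apply]
    intro i hi
    have hi' : i < n + 1 := lt_of_lt_of_le hi (min_le_left _ _)
    have h5 := ha n ⟨i, hi'⟩
    unfold gp
    rw [dif_pos hi']
    exact h5

end Pool.Agent.H791R2.Cp
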