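import Pool.Agent.H791R2.G

set_option autoImplicit false

/-!
# Coordinates and scales
-/

namespace Pool.Agent.H791R2.Cp

open Filter Topology

/-- extension of functionals from the dense range -/
lemma exists_ext (N : Seminorm ℝ (ℕ →₀ ℝ)) (hN : ∀ x, N x = 0 → x = 0)
    {X : Type*} [NormedAddCommGroup X] [NormedSpace ℝ X]
    (ι : (ℕ →₀ ℝ) →ₗ[ℝ] X) (hι : ∀ x, ‖ι x‖ = N x) (g : (ℕ →₀ ℝ) →ₗ[ℝ] ℝ) {C : ℝ} (hC : 0 ≤ C)
    (hg : ∀ x, |g x| ≤ C * N x) :
    ∃ G : X →L[ℝ] ℝ, (∀ x, G (ι x) = g x) ∧ ‖G‖ ≤ C := by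
  have hinj : Function.Injective ι := by
    rw [injective_iff_map_eq_zero]
    intro x hx
    exact hN x (by rw [← hι, hx, norm_zero])
  let E := LinearEquiv.ofInjective ι hinj
  have hE : ∀ y : LinearMap.range ι, ι (E.symm y) = (y : X) := by
    intro y
    have : (E (E.symm y) : X) = y := by rw [E.apply_symm_apply]
    exact this
  let f : LinearMap.range ι →L[ℝ] ℝ := (g.comp E.symm.toLinearMap).mkContinuous C (by
    intro y
    have h1 := hg (E.symm y)
    rw [← hι, hE y] at h1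
    exact h1)
  obtain ⟨G, hG1, hG2⟩ := exists_extension_norm_eq (LinearMap.range ι) f
  refine ⟨G, fun x => ?_, ?_⟩
  · have h1 := hG1 ⟨ι x, LinearMap.mem_range_self ι x⟩
    rw [h1]
    show g (E.symm ⟨ι x, LinearMap.mem_range_self ι x⟩) = g x
    congr 1
    apply hinj
    rw [hE]
  · rw [hG2]
    exact LinearMap.mkContinuous_norm_le _ hC _

/-- the constants controlling the scales -/
noncomputable def DD (d : Dat) (l : ℕ) : ℝ := 100 * 2 ^ l * ((l : ℝ) + 1) * (d.A + 1) * d.q l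

lemma DD_ge (d : Dat) (l : ℕ) : 100 ≤ DD d l := by
  have h1 : (1 : ℝ) ≤ 2 ^ l := one_le_pow₀ (by norm_num)
  have h2 : (1 : ℝ) ≤ (l : ℝ) + 1 := by linarith [Nat.cast_nonneg (α := ℝ) l]
  have h3 : 1 ≤ d.A + 1 := by linarith [d.hA]
  have h4 := d.hq l
  unfold DD
  have h5 : (1 : ℝ) ≤ 2 ^ l * ((l : ℝ) + 1) := one_le_mul_of_one_le_of_one_le h1 h2
  have h6 : (1 : ℝ) ≤ 2 ^ l * ((l : ℝ) + 1) * (d.A + 1) := one_le_mul_of_one_le_of_one_le h5 h3
  have h7 : (1 : ℝ) ≤ 2 ^ l * ((l : ℝ) + 1) * (d.A + 1) * d.q l :=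
    one_le_mul_of_one_le_of_one_le h6 h4
  calc (100 : ℝ) = 100 * 1 := by norm_num
    _ ≤ 100 * (2 ^ l * ((l : ℝ) + 1) * (d.A + 1) * d.q l) :=
        mul_le_mul_of_nonneg_left h7 (by norm_num)
    _ = _ := by ring

/-- the scales -/
noncomputable def tt (d : Dat) (l : ℕ) : ℝ := ∏ i ∈ Finset.range (l + 1), (DD d i)⁻¹

variable (d : Dat)

lemma DD_pos (l : ℕ) : 0 < DD d l := lt_of_lt_of_le (by norm_num) (DD_ge d l)

lemma tt_pos (l : ℕ) : 0 < tt d l := Finset.prod_pos fun i _ => inv_pos.2 (DD_pos d i)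

lemma tt_succ (l : ℕ) : tt d (l + 1) * DD d (l + 1) = tt d l := by
  unfold tt
  rw [Finset.prod_range_succ, mul_assoc, inv_mul_cancel₀ (DD_pos d _).ne', mul_one]

lemma tt_succ_le (l : ℕ) : tt d (l + 1) ≤ tt d l * (1 / 100) := by
  have h1 := tt_succ d l
  have h2 := mul_le_mul_of_nonneg_left (DD_ge d (l + 1)) (tt_pos d (l + 1)).le
  linarith

lemma tt_anti : Antitone (tt d) := antitone_nat_of_succ_le fun l => by
  have := tt_succ_le d l
  have := tt_pos d l
  linarith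

lemma tt_mul_le {i l : ℕ} (h : i < l) : tt d l * DD d l ≤ tt d i := by
  obtain ⟨m, rfl⟩ : ∃ m, l = m + 1 := ⟨l - 1, by omega⟩
  rw [tt_succ]
  exact tt_anti d (by omega)

lemma tt_geom (k m : ℕ) : tt d (k + m) ≤ tt d k * (1 / 100) ^ m := by
  induction m with
  | zero => simp
  | succ m ih =>
    have := tt_succ_le d (k + m)
    rw [pow_succ, ← mul_assoc, ← add_assoc]
    linarith

lemma tt_summable : Summable (tt d) := by
  refine Summable.of_nonneg_of_le (fun l => (tt_pos d l).le) (fun l => ?_)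
    ((summable_geometric_of_lt_one (r := (1 / 100 : ℝ)) (by norm_num) (by norm_num)).mul_left (tt d 0))
  have := tt_geom d 0 l
  rwa [zero_add] at this

/-- tails of sums -/
lemma tail_le {f : ℕ → ℝ} (hf : ∀ l, |f l| ≤ tt d l) (k : ℕ) :
    |∑' l, f l - ∑ l ∈ Finset.range (k + 1), f l| ≤ tt d k / 99 := by
  have hs : Summable f := Summable.of_norm_bounded (tt_summable d) hf
  rw [← hs.sum_add_tsum_nat_add (k + 1), add_sub_cancel_left]
  have hg : HasSum (fun m : ℕ => tt d k * (1 / 100) * (1 / 100) ^ m)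
      (tt d k * (1 / 100) * (1 - 1 / 100)⁻¹) :=
    (hasSum_geometric_of_lt_one (by norm_num) (by norm_num)).mul_left _
  have h1 := tsum_of_norm_bounded hg (f := fun i => f (i + (k + 1))) (fun m => ?_)
  · rw [Real.norm_eq_abs] at h1
    refine h1.trans (le_of_eq ?_)
    norm_num
    ring
  · refine (hf _).trans ?_
    have h2 := tt_geom d (k + 1) m
    have h3 := tt_succ_le d k
    rw [add_comm m (k + 1)]
    refine h2.trans (mul_le_mul_of_nonneg_right h3 (by positivity))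

end Pool.Agent.H791R2.Cp
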