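import Pool.Agent.H791R2.H1

set_option autoImplicit false

/-!
# The function
-/

namespace Pool.Agent.H791R2.Cp

open Filter Topology

variable (d : Dat) {X : Type*} [NormedAddCommGroup X] [NormedSpace ℝ X] (c : ℕ → X →L[ℝ] ℝ)

/-- the point of the cube -/
noncomputable def bb (y : X) (i : ℕ) : ℝ := Real.cos (c i y / tt d i)

/-- the point of the cube -/
noncomputable def bC (y : X) : Cube := ⟨bb d c y, fun _ => Real.abs_cos_le_one _⟩

/-- the terms -/
noncomputable def fl (l : ℕ) (y : X) : ℝ :=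
  tt d l * Th d l (bb d c y) * Real.sin (c l y / tt d l)

/-- the function -/
noncomputable def FF (y : X) : ℝ := ∑' l, fl d c l y

/-- coefficients of the error term -/
noncomputable def ww (l i : ℕ) (y : X) : ℝ :=
  (∏ j ∈ (Finset.range (d.r l)).erase i, d.φ (d.q l * (bb d c y j - d.p l j))) *
    (d.φ' (d.q l * (bb d c y i - d.p l i)) * (d.q l * (-Real.sin (c i y / tt d i) / tt d i)))

/-- the error terms -/
noncomputable def El (l : ℕ) (y : X) : X →L[ℝ] ℝ :=
  ∑ i ∈ Finset.range (d.r l), (tt d l * Real.sin (c l y / tt d l) * ww d c l i y) • c i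

/-- the derivatives -/
noncomputable def Dl (l : ℕ) (y : X) : X →L[ℝ] ℝ := (ee d l (bC d c y)) • c l + El d c l y

lemma fl_le (l : ℕ) (y : X) : |fl d c l y| ≤ tt d l := by
  unfold fl
  rw [abs_mul, abs_mul, abs_of_nonneg (tt_pos d l).le, abs_of_nonneg (Th_nonneg d l _), mul_assoc]
  have h1 : Th d l (bb d c y) * |Real.sin (c l y / tt d l)| ≤ 1 * 1 :=
    mul_le_mul (Th_le_one d l _) (Real.abs_sin_le_one _) (abs_nonneg _) zero_le_one
  calc _ ≤ tt d l * (1 * 1) := mul_le_mul_of_nonneg_left h1 (tt_pos d l).le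
    _ = _ := by ring

lemma hasDerivAt_fl (l : ℕ) (x v : X) (s : ℝ) :
    HasDerivAt (fun s : ℝ => fl d c l (x + s • v)) (Dl d c l (x + s • v) v) s := by
  have h1 : ∀ i, HasDerivAt (fun s : ℝ => c i (x + s • v) / tt d i) (c i v / tt d i) s := by
    intro i
    have h2 : (fun s : ℝ => c i (x + s • v) / tt d i) =
        fun s : ℝ => (c i x + s * c i v) / tt d i := by
      funext s
      simp
    rw [h2]
    have h3 : HasDerivAt (fun s : ℝ => c i x + s * c i v) (1 * c i v) s :=
      ((hasDerivAt_id s).mul_const (c i v)).const_add (c i x)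
    rw [one_mul] at h3
    exact h3.div_const _
  have h2 : ∀ i, HasDerivAt (fun s : ℝ => bb d c (x + s • v) i)
      (-Real.sin (c i (x + s • v) / tt d i) * (c i v / tt d i)) s := fun i => (h1 i).cos
  have h3 : ∀ i, HasDerivAt (fun s : ℝ => d.φ (d.q l * (bb d c (x + s • v) i - d.p l i)))
      (d.φ' (d.q l * (bb d c (x + s • v) i - d.p l i)) *
        (d.q l * (-Real.sin (c i (x + s • v) / tt d i) * (c i v / tt d i)))) s := by
    intro i
    have h4 : HasDerivAt (fun s : ℝ => d.q l * (bb d c (x + s • v) i - d.p l i))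
        (d.q l * (-Real.sin (c i (x + s • v) / tt d i) * (c i v / tt d i))) s :=
      ((h2 i).sub_const _).const_mul _
    exact (d.hd _).comp s h4
  have h4 : HasDerivAt (fun s : ℝ => Th d l (bb d c (x + s • v)))
      (∑ i ∈ Finset.range (d.r l), (∏ j ∈ (Finset.range (d.r l)).erase i,
        d.φ (d.q l * (bb d c (x + s • v) j - d.p l j))) •
        (d.φ' (d.q l * (bb d c (x + s • v) i - d.p l i)) *
        (d.q l * (-Real.sin (c i (x + s • v) / tt d i) * (c i v / tt d i))))) s :=
    HasDerivAt.fun_finsetProd fun i _ => h3 i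
  have h5 : HasDerivAt (fun s : ℝ => Real.sin (c l (x + s • v) / tt d l))
      (Real.cos (c l (x + s • v) / tt d l) * (c l v / tt d l)) s := (h1 l).sin
  have h6 := (h4.const_mul (tt d l)).mul h5
  refine h6.congr_deriv ?_
  have ht := (tt_pos d l).ne'
  simp only [Dl, El, ee, bC, ContinuousLinearMap.add_apply, ContinuousLinearMap.smul_apply,
    ContinuousLinearMap.sum_apply, smul_eq_mul, ww]
  rw [Finset.mul_sum, Finset.sum_mul, add_comm]
  congr 1
  · show tt d l * Th d l (bb d c (x + s • v)) * (Real.cos (c l (x + s • v) / tt d l) *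
      (c l v / tt d l)) = Real.cos (c l (x + s • v) / tt d l) * Th d l (bb d c (x + s • v)) * c l v
    field_simp
  · refine Finset.sum_congr rfl fun i _ => ?_
    ring

lemma ww_le (l i : ℕ) (y : X) : |ww d c l i y| ≤ d.A * d.q l / tt d i := by
  have hq : 0 ≤ d.q l := zero_le_one.trans (d.hq l)
  have ht := tt_pos d i
  have hA := d.hA
  unfold ww
  rw [abs_mul, Finset.abs_prod]
  have h1 : ∏ j ∈ (Finset.range (d.r l)).erase i,
      |d.φ (d.q l * (bb d c y j - d.p l j))| ≤ 1 :=
    Finset.prod_le_one (fun _ _ => abs_nonneg _) fun j _ => by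
      rw [abs_of_nonneg (d.h0 _)]; exact d.h1 _
  have h2 : |d.φ' (d.q l * (bb d c y i - d.p l i)) *
      (d.q l * (-Real.sin (c i y / tt d i) / tt d i))| ≤ d.A * (d.q l * (1 / tt d i)) := by
    rw [abs_mul]
    refine mul_le_mul (d.hA' _) ?_ (abs_nonneg _) hA
    rw [abs_mul, abs_of_nonneg hq]
    refine mul_le_mul_of_nonneg_left ?_ hq
    rw [abs_div, abs_neg, abs_of_pos ht]
    exact div_le_div_of_nonneg_right (Real.abs_sin_le_one _) ht.le
  calc _ ≤ 1 * (d.A * (d.q l * (1 / tt d i))) :=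
        mul_le_mul h1 h2 (abs_nonneg _) zero_le_one
    _ = _ := by field_simp

lemma El_le (hc : ∀ i, ‖c i‖ ≤ 2) (l : ℕ) (y : X) : ‖El d c l y‖ ≤ (1 / 2) ^ l * (1 / 50) := by
  have hq : 0 < d.q l := zero_lt_one.trans_le (d.hq l)
  have hA := d.hA
  have htl := tt_pos d l
  unfold El
  have h1 : ∀ i ∈ Finset.range (d.r l),
      ‖(tt d l * Real.sin (c l y / tt d l) * ww d c l i y) • c i‖ ≤
        2 * (d.A * d.q l / DD d l) := by
    intro i hi
    have hi' : i < l := (Finset.mem_range.1 hi).trans_le (d.hr l)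
    have hti := tt_pos d i
    rw [norm_smul, Real.norm_eq_abs, abs_mul, abs_mul, abs_of_pos htl]
    have h2 := ww_le d c l i y
    have h3 : tt d l / tt d i ≤ 1 / DD d l := by
      rw [div_le_div_iff₀ hti (DD_pos d l), one_mul]
      exact tt_mul_le d hi'
    have h4 : tt d l * |Real.sin (c l y / tt d l)| * |ww d c l i y| ≤
        d.A * d.q l / DD d l := by
      calc _ ≤ tt d l * 1 * (d.A * d.q l / tt d i) := by
            refine mul_le_mul ?_ h2 (abs_nonneg _) (by positivity)
            exact mul_le_mul_of_nonneg_left (Real.abs_sin_le_one _) htl.le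
        _ = d.A * d.q l * (tt d l / tt d i) := by ring
        _ ≤ d.A * d.q l * (1 / DD d l) := mul_le_mul_of_nonneg_left h3 (by positivity)
        _ = _ := by ring
    have h5 : 0 ≤ d.A * d.q l / DD d l := by
      have := DD_pos d l
      positivity
    calc _ ≤ (d.A * d.q l / DD d l) * 2 := mul_le_mul h4 (hc i) (norm_nonneg _) h5
      _ = _ := by ring
  refine (norm_sum_le _ _).trans ((Finset.sum_le_sum h1).trans ?_)
  rw [Finset.sum_const, Finset.card_range, nsmul_eq_mul]
  have h6 : ((d.r l : ℕ) : ℝ) ≤ (l : ℝ) + 1 := by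
    have : ((d.r l : ℕ) : ℝ) ≤ l := by exact_mod_cast d.hr l
    linarith
  have h7 : 0 ≤ 2 * (d.A * d.q l / DD d l) := by
    have := DD_pos d l
    positivity
  refine (mul_le_mul_of_nonneg_right h6 h7).trans ?_
  have hl : (0 : ℝ) < (l : ℝ) + 1 := by positivity
  have h8 : ((l : ℝ) + 1) * (2 * (d.A * d.q l / DD d l)) =
      (1 / 2) ^ l * (1 / 50) * (d.A / (d.A + 1)) := by
    unfold DD
    rw [one_div_pow]
    field_simp
    ring
  rw [h8]
  have h9 : d.A / (d.A + 1) ≤ 1 := by
    rw [div_le_one (by positivity)]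
    linarith
  calc _ ≤ (1 / 2 : ℝ) ^ l * (1 / 50) * 1 := mul_le_mul_of_nonneg_left h9 (by positivity)
    _ = _ := mul_one _

end Pool.Agent.H791R2.Cp
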