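import Pool.Agent.H791R2.H2

set_option autoImplicit false

/-!
# Lipschitz and Gâteaux differentiable
-/

namespace Pool.Agent.H791R2.Cp

open Filter Topology

variable (d : Dat) {X : Type*} [NormedAddCommGroup X] [NormedSpace ℝ X] (c : ℕ → X →L[ℝ] ℝ)

lemma part1_bound (ι : (ℕ →₀ ℝ) →ₗ[ℝ] X) (hι : ∀ x, ‖ι x‖ = nX (ee d) x) (hd : DenseRange ι)
    (hcι : ∀ l u, c l (ι u) = u l) (n : ℕ) (b : Cube) (v : X) :
    |∑ l ∈ Finset.range n, ee d l b * c l v| ≤ ‖v‖ := by
  refine hd.induction_on (p := fun v => |∑ l ∈ Finset.range n, ee d l b * c l v| ≤ ‖v‖) v ?_ ?_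
  · refine isClosed_le (Continuous.abs ?_) continuous_norm
    exact continuous_finsetSum _ fun l _ => continuous_const.mul (c l).continuous
  · intro u
    rw [hι]
    have h1 := trunc_le d n b u
    have h2 : ∑ l ∈ Finset.range n, ee d l b * c l (ι u) = ∑ l ∈ Finset.range n, u l * ee d l b :=
      Finset.sum_congr rfl fun l _ => by rw [hcι, mul_comm]
    rw [h2]
    exact h1

lemma part1_cauchy (ι : (ℕ →₀ ℝ) →ₗ[ℝ] X) (hι : ∀ x, ‖ι x‖ = nX (ee d) x) (hd : DenseRange ι)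
    (hcι : ∀ l u, c l (ι u) = u l) (v : X) {ε : ℝ} (hε : 0 < ε) :
    ∃ N, ∀ m ≥ N, ∀ n ≥ N, ∀ b : Cube, |∑ l ∈ Finset.range m, ee d l b * c l v -
      ∑ l ∈ Finset.range n, ee d l b * c l v| ≤ ε := by
  classical
  obtain ⟨u, hu⟩ : ∃ u, ‖v - ι u‖ < ε / 2 := by
    have := Metric.denseRange_iff.1 hd v (ε / 2) (by positivity)
    obtain ⟨u, hu⟩ := this
    exact ⟨u, by rwa [dist_eq_norm] at hu⟩
  obtain ⟨N, hN⟩ := u.support.exists_nat_subset_range
  have h0 : ∀ n ≥ N, ∀ b : Cube, ∑ l ∈ Finset.range n, ee d l b * c l (ι u) =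
      ∑ l ∈ Finset.range N, ee d l b * c l (ι u) := by
    intro n hn b
    symm
    refine Finset.sum_subset (Finset.range_mono hn) fun l _ hl => ?_
    have : l ∉ u.support := fun h => hl (hN h)
    rw [hcι, Finsupp.notMem_support_iff.1 this, mul_zero]
  refine ⟨N, fun m hm n hn b => ?_⟩
  have h1 := part1_bound d c ι hι hd hcι m b (v - ι u)
  have h2 := part1_bound d c ι hι hd hcι n b (v - ι u)
  have h3 : ∀ n, ∑ l ∈ Finset.range n, ee d l b * c l (v - ι u) =
      ∑ l ∈ Finset.range n, ee d l b * c l v - ∑ l ∈ Finset.range n, ee d l b * c l (ι u) := by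
    intro n
    rw [← Finset.sum_sub_distrib]
    exact Finset.sum_congr rfl fun l _ => by rw [map_sub, mul_sub]
  rw [h3, h0 m hm] at h1
  rw [h3, h0 n hn] at h2
  have h4 := abs_le.1 h1
  have h5 := abs_le.1 h2
  rw [abs_le]
  constructor <;> linarith [h4.1, h4.2, h5.1, h5.2]

lemma sum_El_bound (hc : ∀ i, ‖c i‖ ≤ 2) (n : ℕ) (y v : X) :
    |∑ l ∈ Finset.range n, El d c l y v| ≤ ‖v‖ := by
  refine (Finset.abs_sum_le_sum_abs _ _).trans ?_
  have h1 : ∀ l ∈ Finset.range n, |El d c l y v| ≤ (1 / 2) ^ l * (1 / 50 * ‖v‖) := by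
    intro l _
    have h2 := (El d c l y).le_opNorm v
    rw [Real.norm_eq_abs] at h2
    refine h2.trans ?_
    rw [← mul_assoc]
    exact mul_le_mul_of_nonneg_right (El_le d c hc l y) (norm_nonneg _)
  refine (Finset.sum_le_sum h1).trans ?_
  rw [← Finset.sum_mul]
  have h3 : ∑ l ∈ Finset.range n, (1 / 2 : ℝ) ^ l ≤ 2 := by
    have := sum_geometric_two_le n
    simpa using this
  have h4 := mul_le_mul_of_nonneg_right h3 (show 0 ≤ 1 / 50 * ‖v‖ by positivity)
  have h5 := norm_nonneg v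
  linarith

lemma Dl_apply (l : ℕ) (y v : X) : Dl d c l y v = ee d l (bC d c y) * c l v + El d c l y v := by
  simp [Dl]

lemma sum_Dl_bound (ι : (ℕ →₀ ℝ) →ₗ[ℝ] X) (hι : ∀ x, ‖ι x‖ = nX (ee d) x) (hd : DenseRange ι)
    (hcι : ∀ l u, c l (ι u) = u l) (hc : ∀ i, ‖c i‖ ≤ 2) (n : ℕ) (y v : X) :
    |∑ l ∈ Finset.range n, Dl d c l y v| ≤ 2 * ‖v‖ := by
  simp only [Dl_apply]
  rw [Finset.sum_add_distrib]
  have h1 := part1_bound d c ι hι hd hcι n (bC d c y) v
  have h2 := sum_El_bound d c hc n y v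
  refine (abs_add_le _ _).trans (by linarith)

lemma part2_cauchy (hc : ∀ i, ‖c i‖ ≤ 2) (v : X) {ε : ℝ} (hε : 0 < ε) :
    ∃ N, ∀ m ≥ N, ∀ n ≥ N, ∀ y, |∑ l ∈ Finset.range m, El d c l y v -
      ∑ l ∈ Finset.range n, El d c l y v| ≤ ε := by
  have hu : Summable fun l : ℕ => (1 / 2 : ℝ) ^ l * (1 / 50 * ‖v‖) :=
    (summable_geometric_of_lt_one (by norm_num) (by norm_num)).mul_right _
  have h1 : ∀ l y, ‖El d c l y v‖ ≤ (1 / 2) ^ l * (1 / 50 * ‖v‖) := by
    intro l y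
    refine ((El d c l y).le_opNorm v).trans ?_
    rw [← mul_assoc]
    exact mul_le_mul_of_nonneg_right (El_le d c hc l y) (norm_nonneg _)
  have h2 := tendstoUniformly_tsum_nat hu h1
  rw [Metric.tendstoUniformly_iff] at h2
  obtain ⟨N, hN⟩ := eventually_atTop.1 (h2 (ε / 2) (by positivity))
  refine ⟨N, fun m hm n hn y => ?_⟩
  have h3 := hN m hm y
  have h4 := hN n hn y
  rw [Real.dist_eq] at h3 h4
  have h5 := abs_lt.1 h3
  have h6 := abs_lt.1 h4
  rw [abs_le]
  constructor <;> linarith [h5.1, h5.2, h6.1, h6.2]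

lemma total_cauchy (ι : (ℕ →₀ ℝ) →ₗ[ℝ] X) (hι : ∀ x, ‖ι x‖ = nX (ee d) x) (hd : DenseRange ι)
    (hcι : ∀ l u, c l (ι u) = u l) (hc : ∀ i, ‖c i‖ ≤ 2) (v : X) {ε : ℝ} (hε : 0 < ε) :
    ∃ N, ∀ m ≥ N, ∀ n ≥ N, ∀ y, |∑ l ∈ Finset.range m, Dl d c l y v -
      ∑ l ∈ Finset.range n, Dl d c l y v| ≤ ε := by
  obtain ⟨N1, hN1⟩ := part1_cauchy d c ι hι hd hcι v (half_pos hε)
  obtain ⟨N2, hN2⟩ := part2_cauchy d c hc v (half_pos hε)
  refine ⟨max N1 N2, fun m hm n hn y => ?_⟩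
  have h1 := hN1 m ((le_max_left _ _).trans hm) n ((le_max_left _ _).trans hn) (bC d c y)
  have h2 := hN2 m ((le_max_right _ _).trans hm) n ((le_max_right _ _).trans hn) y
  simp only [Dl_apply]
  rw [Finset.sum_add_distrib, Finset.sum_add_distrib]
  have h3 := abs_le.1 h1
  have h4 := abs_le.1 h2
  rw [abs_le]
  constructor <;> linarith [h3.1, h3.2, h4.1, h4.2]

/-- existence of the Gâteaux derivative with uniform convergence -/
lemma exists_deriv (ι : (ℕ →₀ ℝ) →ₗ[ℝ] X) (hι : ∀ x, ‖ι x‖ = nX (ee d) x) (hd : DenseRange ι)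
    (hcι : ∀ l u, c l (ι u) = u l) (hc : ∀ i, ‖c i‖ ≤ 2) :
    ∃ G : X → X →L[ℝ] ℝ, (∀ y, ‖G y‖ ≤ 2) ∧
      ∀ v, TendstoUniformly (fun n y => ∑ l ∈ Finset.range n, Dl d c l y v) (fun y => G y v) atTop := by
  have hC := fun (v : X) (ε : ℝ) (hε : 0 < ε) => total_cauchy d c ι hι hd hcι hc v hε
  have hlim : ∀ y v, ∃ a, Tendsto (fun n => ∑ l ∈ Finset.range n, Dl d c l y v) atTop (𝓝 a) := by
    intro y v
    apply cauchySeq_tendsto_of_complete
    rw [Metric.cauchySeq_iff]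
    intro ε hε
    obtain ⟨N, hN⟩ := hC v (ε / 2) (by positivity)
    refine ⟨N, fun m hm n hn => ?_⟩
    rw [Real.dist_eq]
    exact (hN m hm n hn y).trans_lt (by linarith)
  choose G hG using hlim
  have hadd : ∀ y v w, G y (v + w) = G y v + G y w := by
    intro y v w
    refine tendsto_nhds_unique (hG y (v + w)) ?_
    have := (hG y v).add (hG y w)
    refine this.congr fun n => ?_
    rw [← Finset.sum_add_distrib]
    exact Finset.sum_congr rfl fun l _ => by rw [map_add]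
  have hsmul : ∀ y (a : ℝ) v, G y (a • v) = a • G y v := by
    intro y a v
    refine tendsto_nhds_unique (hG y (a • v)) ?_
    have := (hG y v).const_mul a
    refine this.congr fun n => ?_
    rw [Finset.mul_sum]
    exact Finset.sum_congr rfl fun l _ => by rw [map_smul, smul_eq_mul]
  have hbd : ∀ y v, ‖G y v‖ ≤ 2 * ‖v‖ := by
    intro y v
    rw [Real.norm_eq_abs]
    refine le_of_tendsto ((hG y v).abs) (Eventually.of_forall fun n => ?_)
    exact sum_Dl_bound d c ι hι hd hcι hc n y v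
  refine ⟨fun y => LinearMap.mkContinuous ⟨⟨G y, hadd y⟩, hsmul y⟩ 2 (hbd y),
    fun y => LinearMap.mkContinuous_norm_le _ (by norm_num) _, fun v => ?_⟩
  rw [Metric.tendstoUniformly_iff]
  intro ε hε
  obtain ⟨N, hN⟩ := hC v (ε / 2) (by positivity)
  filter_upwards [eventually_ge_atTop N] with n hn y
  have h1 : |G y v - ∑ l ∈ Finset.range n, Dl d c l y v| ≤ ε / 2 := by
    refine le_of_tendsto (((hG y v).sub_const _).abs) ?_
    filter_upwards [eventually_ge_atTop N] with m hm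
    exact hN m hm n hn y
  rw [Real.dist_eq]
  exact h1.trans_lt (by linarith)

lemma summable_fl (y : X) : Summable fun l => fl d c l y :=
  Summable.of_norm_bounded (tt_summable d) fun l => fl_le d c l y

/-- the line derivative -/
lemma hasDerivAt_FF {G : X → X →L[ℝ] ℝ}
    (hG : ∀ v, TendstoUniformly (fun n y => ∑ l ∈ Finset.range n, Dl d c l y v)
      (fun y => G y v) atTop) (x v : X) (s : ℝ) :
    HasDerivAt (fun s : ℝ => FF d c (x + s • v)) (G (x + s • v) v) s := by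
  have h1 : TendstoUniformly (fun (n : ℕ) (s : ℝ) => ∑ l ∈ Finset.range n, Dl d c l (x + s • v) v)
      (fun s : ℝ => G (x + s • v) v) atTop := (hG v).comp fun s : ℝ => x + s • v
  refine hasDerivAt_of_tendstoUniformly (f := fun (n : ℕ) (s : ℝ) =>
    ∑ l ∈ Finset.range n, fl d c l (x + s • v)) (g := fun s : ℝ => FF d c (x + s • v)) h1
    (Eventually.of_forall fun n s => ?_) (fun s => ?_) s
  · exact HasDerivAt.fun_sum fun l _ => hasDerivAt_fl d c l x v s
  · exact (summable_fl d c (x + s • v)).hasSum.tendsto_sum_nat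

/-- the function is Lipschitz -/
lemma lip_FF {G : X → X →L[ℝ] ℝ} (hG2 : ∀ y, ‖G y‖ ≤ 2)
    (hG : ∀ v, TendstoUniformly (fun n y => ∑ l ∈ Finset.range n, Dl d c l y v)
      (fun y => G y v) atTop) : LipschitzWith 2 (FF d c) := by
  refine LipschitzWith.of_dist_le_mul fun x y => ?_
  have h1 := Convex.norm_image_sub_le_of_norm_hasDerivWithin_le
    (f := fun s : ℝ => FF d c (y + s • (x - y))) (f' := fun s : ℝ => G (y + s • (x - y)) (x - y))
    (s := Set.univ) (x := 0) (y := 1) (C := 2 * ‖x - y‖)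
    (fun s _ => (hasDerivAt_FF d c hG y (x - y) s).hasDerivWithinAt)
    (fun s _ => ((G _).le_opNorm _).trans (mul_le_mul_of_nonneg_right (hG2 _) (norm_nonneg _)))
    convex_univ (Set.mem_univ _) (Set.mem_univ _)
  simp only [one_smul, zero_smul, add_zero, sub_zero, norm_one, mul_one, add_sub_cancel] at h1
  rw [dist_eq_norm, dist_eq_norm]
  exact h1

end Pool.Agent.H791R2.Cp
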