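import Pool.Agent.H791R2.H3

set_option autoImplicit false

/-!
# Nowhere Fréchet differentiable
-/

namespace Pool.Agent.H791R2.Cp

open Filter Topology

variable (d : Dat) {X : Type*} [NormedAddCommGroup X] [NormedSpace ℝ X] (c : ℕ → X →L[ℝ] ℝ)

lemma not_diff (ι : (ℕ →₀ ℝ) →ₗ[ℝ] X) (hι : ∀ x, ‖ι x‖ = nX (ee d) x)
    (hcι : ∀ l u, c l (ι u) = u l) (x : X) : ¬ DifferentiableAt ℝ (FF d c) x := by
  classical
  intro hdiff
  have h1 := hdiff.hasFDerivAt.isLittleO
  rw [Asymptotics.isLittleO_iff] at h1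
  have h2 := h1 (show (0 : ℝ) < 1 / 100 by norm_num)
  rw [Metric.eventually_nhds_iff] at h2
  obtain ⟨δ, hδ, h2⟩ := h2
  set D := fderiv ℝ (FF d c) x with hD
  obtain ⟨K, hK⟩ : ∃ K, ∀ k ≥ K, 4 * tt d k < δ := by
    have h3 : Tendsto (fun k => 4 * tt d k) atTop (𝓝 0) := by
      have := (tt_summable d).tendsto_atTop_zero.const_mul 4
      simpa using this
    exact eventually_atTop.1 (h3.eventually (gt_mem_nhds hδ))
  obtain ⟨k, hkK, hk⟩ := d.hb (bb d c x) (fun i => Real.abs_cos_le_one _) K
  have hδk := hK k hkK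
  have ht := tt_pos d k
  set θ := c k x / tt d k with hθ
  set e := ι (Finsupp.single k 1) with he
  have hce : ∀ i, c i e = if k = i then 1 else 0 := by
    intro i
    rw [he, hcι, Finsupp.single_apply]
  have hne : ‖e‖ ≤ 1 := by
    rw [he, hι]
    refine (nX_le_one _ _).trans ?_
    rw [one_single, abs_one]
  have hThk : Th d k (bb d c x) = 1 := Th_eq_one d hk
  -- values along the direction
  have key : ∀ σ : ℝ, |σ| ≤ 4 → |Real.sin (θ + σ) - Real.sin θ - σ * D e| ≤ 1 / 10 := by
    intro σ hσ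
    set y := x + (σ * tt d k) • e with hy
    have hcy : ∀ i, c i y = c i x + if k = i then σ * tt d k else 0 := by
      intro i
      rw [hy, map_add, map_smul, hce, smul_eq_mul]
      split_ifs <;> simp
    have hcy' : ∀ i < k, c i y = c i x := by
      intro i hi
      rw [hcy, if_neg (by omega), add_zero]
    have hbb : ∀ i < k, bb d c y i = bb d c x i := by
      intro i hi
      unfold bb
      rw [hcy' i hi]
    have hfl : ∀ l < k, fl d c l y = fl d c l x := by
      intro l hl
      unfold fl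
      rw [hcy' l hl, Th_congr d (b := bb d c y) (b' := bb d c x) fun i hi => hbb i (hi.trans hl)]
    have hflk : fl d c k y = tt d k * Real.sin (θ + σ) := by
      unfold fl
      rw [Th_congr d (b := bb d c y) (b' := bb d c x) fun i hi => hbb i hi, hThk, mul_one, hcy,
        if_pos rfl]
      congr 2
      rw [hθ]
      field_simp
    have hflk' : fl d c k x = tt d k * Real.sin θ := by
      unfold fl
      rw [hThk, mul_one]
    have t1 := tail_le d (fun l => fl_le d c l y) k
    have t2 := tail_le d (fun l => fl_le d c l x) k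
    have t3 : ∑ l ∈ Finset.range (k + 1), fl d c l y = ∑ l ∈ Finset.range k, fl d c l x +
        tt d k * Real.sin (θ + σ) := by
      rw [Finset.sum_range_succ, hflk]
      congr 1
      exact Finset.sum_congr rfl fun l hl => hfl l (Finset.mem_range.1 hl)
    rw [t3] at t1
    rw [Finset.sum_range_succ, hflk'] at t2
    have hyx : y - x = (σ * tt d k) • e := by rw [hy]; abel
    have hnyx : ‖y - x‖ ≤ 4 * tt d k := by
      rw [hyx, norm_smul, Real.norm_eq_abs, abs_mul, abs_of_pos ht]
      calc |σ| * tt d k * ‖e‖ ≤ 4 * tt d k * 1 := by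
            refine mul_le_mul ?_ hne (norm_nonneg _) (by positivity)
            exact mul_le_mul_of_nonneg_right hσ ht.le
        _ = _ := mul_one _
    have t4 := h2 (y := y) (by rw [dist_eq_norm]; exact hnyx.trans_lt hδk)
    rw [Real.norm_eq_abs, hyx, map_smul, smul_eq_mul, ← hyx] at t4
    have t5 : |FF d c y - FF d c x - σ * tt d k * D e| ≤ 1 / 100 * (4 * tt d k) :=
      t4.trans (mul_le_mul_of_nonneg_left hnyx (by norm_num))
    have t6 : tt d k * |Real.sin (θ + σ) - Real.sin θ - σ * D e| ≤ tt d k * (1 / 10) := by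
      rw [← abs_of_pos ht, ← abs_mul, abs_of_pos ht]
      have a1 := abs_le.1 t1
      have a2 := abs_le.1 t2
      have a3 := abs_le.1 t5
      unfold FF at a3
      rw [abs_le]
      constructor <;> linarith [a1.1, a1.2, a2.1, a2.2, a3.1, a3.2]
    exact le_of_mul_le_mul_left t6 ht
  have hπ1 := Real.pi_gt_three
  have hπ2 := Real.pi_le_four
  have k1 := key Real.pi (by rw [abs_of_pos Real.pi_pos]; exact hπ2)
  have k2 := key (-Real.pi) (by rw [abs_neg, abs_of_pos Real.pi_pos]; exact hπ2)
  have k3 := key (Real.pi / 2) (by rw [abs_of_pos (by positivity)]; linarith)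
  rw [Real.sin_add_pi] at k1
  rw [← sub_eq_add_neg, Real.sin_sub_pi] at k2
  rw [Real.sin_add_pi_div_two] at k3
  have a1 := abs_le.1 k1
  have a2 := abs_le.1 k2
  have a3 := abs_le.1 k3
  have b1 : |Real.sin θ| ≤ 1 / 20 := by
    rw [abs_le]
    constructor <;> linarith [a1.1, a1.2, a2.1, a2.2]
  have b2 : |Real.pi * D e| ≤ 1 / 10 := by
    rw [abs_le]
    constructor <;> linarith [a1.1, a1.2, a2.1, a2.2]
  have a4 := abs_le.1 b1
  have a5 := abs_le.1 b2
  have b3 : |Real.cos θ| ≤ 1 / 5 := by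
    rw [abs_le]
    constructor <;> linarith [a3.1, a3.2, a4.1, a4.2, a5.1, a5.2]
  have a6 := abs_le.1 b3
  have hsc := Real.sin_sq_add_cos_sq θ
  have b4 : Real.sin θ ^ 2 ≤ (1 / 20) ^ 2 := sq_le_sq' a4.1 a4.2
  have b5 : Real.cos θ ^ 2 ≤ (1 / 5) ^ 2 := sq_le_sq' a6.1 a6.2
  norm_num at b4 b5
  linarith

end Pool.Agent.H791R2.Cp
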