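import Pool.Agent.H791R2.H4

set_option autoImplicit false

/-!
# The space
-/

namespace Pool.Agent.H791R2.Cp

open Filter Topology

/-- the space of finitely supported sequences with a seminorm -/
def V0 (_N : Seminorm ℝ (ℕ →₀ ℝ)) : Type := ℕ →₀ ℝ

noncomputable instance (N : Seminorm ℝ (ℕ →₀ ℝ)) : AddCommGroup (V0 N) :=
  inferInstanceAs (AddCommGroup (ℕ →₀ ℝ))

noncomputable instance (N : Seminorm ℝ (ℕ →₀ ℝ)) : Module ℝ (V0 N) :=
  inferInstanceAs (Module ℝ (ℕ →₀ ℝ))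

/-- the identity -/
noncomputable def toV0 (N : Seminorm ℝ (ℕ →₀ ℝ)) : (ℕ →₀ ℝ) ≃ₗ[ℝ] V0 N := LinearEquiv.refl ℝ _

noncomputable instance (N : Seminorm ℝ (ℕ →₀ ℝ)) : SeminormedAddCommGroup (V0 N) :=
  AddGroupSeminorm.toSeminormedAddCommGroup
    ((N.comp (toV0 N).symm.toLinearMap).toAddGroupSeminorm)

lemma norm_toV0 (N : Seminorm ℝ (ℕ →₀ ℝ)) (x : ℕ →₀ ℝ) : ‖toV0 N x‖ = N x := rfl

lemma norm_V0 (N : Seminorm ℝ (ℕ →₀ ℝ)) (x : V0 N) : ‖x‖ = N ((toV0 N).symm x) := rfl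

noncomputable instance (N : Seminorm ℝ (ℕ →₀ ℝ)) : NormedSpace ℝ (V0 N) where
  norm_smul_le a x := by
    rw [norm_V0, norm_V0, map_smul, map_smul_eq_mul]

lemma exists_space (N : Seminorm ℝ (ℕ →₀ ℝ)) : ∃ (X : Type) (_ : NormedAddCommGroup X)
    (_ : NormedSpace ℝ X) (_ : CompleteSpace X) (ι : (ℕ →₀ ℝ) →ₗ[ℝ] X),
    (∀ x, ‖ι x‖ = N x) ∧ DenseRange ι := by
  refine ⟨UniformSpace.Completion (V0 N), inferInstance, inferInstance, inferInstance,
    (UniformSpace.Completion.toComplL (𝕜 := ℝ) (E := V0 N)).toLinearMap.comp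
      (toV0 N).toLinearMap, fun x => ?_, ?_⟩
  · show ‖((toV0 N x : V0 N) : UniformSpace.Completion (V0 N))‖ = N x
    rw [UniformSpace.Completion.norm_coe, norm_toV0]
  · have h1 : DenseRange ((↑) : V0 N → UniformSpace.Completion (V0 N)) :=
      UniformSpace.Completion.denseRange_coe
    exact h1.comp (toV0 N).surjective.denseRange (UniformSpace.Completion.continuous_coe _)

/-- separability -/
lemma sep_of_dense {X : Type*} [NormedAddCommGroup X] [NormedSpace ℝ X]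
    (ι : (ℕ →₀ ℝ) →ₗ[ℝ] X) (hd : DenseRange ι) : TopologicalSpace.SeparableSpace X := by
  have h1 : TopologicalSpace.IsSeparable (Set.range fun l : ℕ => ι (Finsupp.single l 1)) :=
    (Set.countable_range _).isSeparable
  have h2 := h1.span (R := ℝ)
  have h3 : Set.range ι ⊆ (Submodule.span ℝ (Set.range fun l : ℕ => ι (Finsupp.single l 1)) : Set X) := by
    rintro _ ⟨x, rfl⟩
    induction x using Finsupp.induction_linear with
    | zero => simp
    | add x y hx hy =>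
      rw [map_add]
      exact Submodule.add_mem _ hx hy
    | single l a =>
      have : ι (Finsupp.single l a) = a • ι (Finsupp.single l 1) := by
        rw [← map_smul, Finsupp.smul_single, smul_eq_mul, mul_one]
      rw [this]
      exact Submodule.smul_mem _ _ (Submodule.subset_span ⟨l, rfl⟩)
  have h4 : TopologicalSpace.IsSeparable (Set.univ : Set X) := by
    have h5 := (h2.mono h3).closure
    rwa [hd.closure_range] at h5
  exact TopologicalSpace.isSeparable_univ_iff.1 h4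

/-- **The counterexample.** -/
theorem main : ∃ (X : Type) (_ : NormedAddCommGroup X) (_ : NormedSpace ℝ X)
    (_ : CompleteSpace X) (_ : TopologicalSpace.SeparableSpace X),
    (∀ C : Set (X →L[ℝ] ℝ), C.Nonempty → Convex ℝ C →
      @IsCompact (X →L[ℝ] ℝ)
        (TopologicalSpace.induced (fun (φ : X →L[ℝ] ℝ) (x : X) => φ x) inferInstance) C →
      ∃ φ ∈ C, ∀ ε : ℝ, 0 < ε → ∃ U : Set (X →L[ℝ] ℝ),
        @IsOpen (X →L[ℝ] ℝ)
          (TopologicalSpace.induced (fun (φ : X →L[ℝ] ℝ) (x : X) => φ x) inferInstance) U ∧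
        φ ∈ U ∧ ∀ ψ ∈ U ∩ C, ‖ψ - φ‖ < ε) ∧
    ∃ f : X → ℝ, LipschitzWith 2 f ∧
      (∀ x : X, ∃ L : X →L[ℝ] ℝ, ∀ v : X, HasLineDerivAt ℝ f (L v) x v) ∧
      ∀ x : X, ¬ DifferentiableAt ℝ f x := by
  obtain ⟨d⟩ := exists_dat
  obtain ⟨X, i1, i2, i3, ι, hι, hd⟩ := exists_space (nX (ee d))
  have hN : ∀ x, nX (ee d) x = 0 → x = 0 := by
    intro x hx
    ext l
    have := coord_le d l x
    rw [hx, mul_zero] at this
    exact abs_nonpos_iff.1 this
  have hc : ∀ l : ℕ, ∃ G : X →L[ℝ] ℝ, (∀ x, G (ι x) = x l) ∧ ‖G‖ ≤ 2 := by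
    intro l
    exact exists_ext (nX (ee d)) hN ι hι (Finsupp.lapply l) (by norm_num) (coord_le d l)
  choose c hcι hc2 using hc
  obtain ⟨G, hG2, hG⟩ := exists_deriv d c ι hι hd hcι hc2
  refine ⟨X, i1, i2, i3, sep_of_dense ι hd, fun C h1 h2 h3 =>
    cstar_pcp (ee_le_one d) (ee_osc d) X ι hι hd C h1 h2 h3, FF d c, lip_FF d c hG2 hG,
    fun x => ⟨G x, fun v => ?_⟩, not_diff d c ι hι hcι⟩
  have := hasDerivAt_FF d c hG x v 0
  simp only [zero_smul, add_zero] at this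
  exact this

end Pool.Agent.H791R2.Cp
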